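import Pool.Agent.Lib.MP_8bb6bd_co.Cells

/-!
# Counting the connected sets of cells which contain a given connected set and avoid another one
-/

namespace Omino

/-- The four neighbours of a cell. -/
def nbrs (c : ℤ × ℤ) : List (ℤ × ℤ) :=
  [(c.1 + 1, c.2), (c.1, c.2 + 1), (c.1 - 1, c.2), (c.1, c.2 - 1)]

theorem mem_nbrs {x y : ℤ × ℤ} : y ∈ nbrs x ↔ Adj x y := by
  simp only [nbrs, List.mem_cons, List.not_mem_nil, or_false]
  exact adj_iff.symm

theorem nodup_nbrs (c : ℤ × ℤ) : (nbrs c).Nodup := by
  obtain ⟨a, b⟩ := c
  simp [nbrs]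
  omega

/-- Redelmeier's algorithm: the number of ways to add `k` cells, starting from the list
`untried` of cells which may be added, `seen` being the list of all cells met so far. -/
def cntA : ℕ → List (ℤ × ℤ) → List (ℤ × ℤ) → ℕ → Option ℕ
  | _, _, _, 0 => some 1
  | _, _, [], _ + 1 => some 0
  | 0, _, _ :: _, _ + 1 => none
  | fuel + 1, seen, c :: rest, k + 1 =>
    match cntA fuel ((nbrs c).filter (fun y => !(seen.contains y)) ++ seen)
        ((nbrs c).filter (fun y => !(seen.contains y)) ++ rest) k,
      cntA fuel seen rest (k + 1) with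
    | some x, some y => some (x + y)
    | _, _ => none

theorem cntA_sound : ∀ (fuel : ℕ) (seen untried : List (ℤ × ℤ)) (k N : ℕ),
    cntA fuel seen untried k = some N →
    ∀ (cur : Finset (ℤ × ℤ)) (X : Set (ℤ × ℤ)), cur.Nonempty →
    (∀ y ∈ seen, y ∈ cur ∨ y ∈ X ∨ y ∈ untried) → (∀ y ∈ untried, y ∉ cur ∧ y ∈ seen) →
    (∀ y ∈ cur, y ∈ seen) → untried.Nodup →
    (∀ x ∈ cur, ∀ y, Adj x y → y ∈ cur ∨ y ∈ X ∨ y ∈ untried) →
    ∃ F : Finset (Finset (ℤ × ℤ)), F.card ≤ N ∧ ∀ C : Finset (ℤ × ℤ), cur ⊆ C →
      (∀ y ∈ X, y ∉ C) → C.card = cur.card + k → EdgeConn (C : Set (ℤ × ℤ)) → C ∈ F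
  | _, seen, untried, 0, N, h, cur, X, hne, h1, h2, h3, h4, h5 => by
    simp only [cntA, Option.some.injEq] at h
    subst h
    refine ⟨{cur}, by simp, ?_⟩
    intro C hC _ hcard _
    rw [Finset.mem_singleton]
    exact (Finset.eq_of_subset_of_card_le hC (by omega)).symm
  | fuel, seen, [], k + 1, N, h, cur, X, hne, h1, h2, h3, h4, h5 => by
    refine ⟨∅, by simp, ?_⟩
    intro C hC hX hcard hconn
    exfalso
    obtain ⟨a, ha⟩ := hne
    have : ∃ b ∈ C, b ∉ cur := by
      by_contra hcon
      push Not at hcon
      have := Finset.card_le_card (show C ⊆ cur from hcon)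
      omega
    obtain ⟨b, hb, hbc⟩ := this
    obtain ⟨x, y, hx, hy, hxy, hxc, hyc⟩ := exit (V := (cur : Set (ℤ × ℤ))) hconn
      (Finset.mem_coe.2 (hC ha)) (Finset.mem_coe.2 ha) (Finset.mem_coe.2 hb) (by simpa using hbc)
    rcases h5 x (Finset.mem_coe.1 hxc) y hxy with h | h | h
    · exact hyc (Finset.mem_coe.2 h)
    · exact hX y h (Finset.mem_coe.1 hy)
    · simp at h
  | 0, _, _ :: _, k + 1, N, h, _, _, _, _, _, _, _, _ => by
    simp [cntA] at h
  | fuel + 1, seen, c :: rest, k + 1, N, h, cur, X, hne, h1, h2, h3, h4, h5 => by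
    simp only [cntA] at h
    set new := (nbrs c).filter (fun y => !(seen.contains y)) with hnew
    have hmem : ∀ y, y ∈ new ↔ Adj c y ∧ y ∉ seen := by
      intro y
      simp [hnew, List.mem_filter, mem_nbrs]
    rcases e1 : cntA fuel (new ++ seen) (new ++ rest) k with _ | N1
    · rw [e1] at h; simp at h
    rcases e2 : cntA fuel seen rest (k + 1) with _ | N2
    · rw [e1, e2] at h; simp at h
    rw [e1, e2] at h
    simp only [Option.some.injEq] at h
    have hcc : c ∉ cur := (h2 c (by simp)).1
    have hcs : c ∈ seen := (h2 c (by simp)).2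
    have hcr : c ∉ rest := (List.nodup_cons.1 h4).1
    -- inclusion of `c`
    obtain ⟨F1, hF1, hF1'⟩ := cntA_sound fuel _ _ _ _ e1 (insert c cur) X (by simp)
      (by
        intro y hy
        rw [List.mem_append] at hy
        rcases hy with hy | hy
        · exact Or.inr (Or.inr (List.mem_append_left _ hy))
        · rcases h1 y hy with h | h | h
          · exact Or.inl (Finset.mem_insert_of_mem h)
          · exact Or.inr (Or.inl h)
          · rcases List.mem_cons.1 h with rfl | h
            · exact Or.inl (Finset.mem_insert_self _ _)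
            · exact Or.inr (Or.inr (List.mem_append_right _ h)))
      (by
        intro y hy
        rw [List.mem_append] at hy
        rcases hy with hy | hy
        · refine ⟨?_, List.mem_append_left _ hy⟩
          intro hyc
          rcases Finset.mem_insert.1 hyc with rfl | hyc
          · exact ((hmem _).1 hy).2 hcs
          · exact ((hmem _).1 hy).2 (h3 _ hyc)
        · refine ⟨?_, List.mem_append_right _ (h2 y (List.mem_cons_of_mem _ hy)).2⟩
          intro hyc
          rcases Finset.mem_insert.1 hyc with rfl | hyc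
          · exact hcr hy
          · exact (h2 y (List.mem_cons_of_mem _ hy)).1 hyc)
      (by
        intro y hy
        rcases Finset.mem_insert.1 hy with rfl | hy
        · exact List.mem_append_right _ hcs
        · exact List.mem_append_right _ (h3 _ hy))
      (by
        refine List.Nodup.append ((nodup_nbrs c).filter _) (List.nodup_cons.1 h4).2 ?_
        intro y hy hy'
        exact ((hmem _).1 hy).2 (h2 y (List.mem_cons_of_mem _ hy')).2)
      (by
        intro x hx y hxy
        rcases Finset.mem_insert.1 hx with rfl | hx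
        · by_cases hy : y ∈ seen
          · rcases h1 y hy with h | h | h
            · exact Or.inl (Finset.mem_insert_of_mem h)
            · exact Or.inr (Or.inl h)
            · rcases List.mem_cons.1 h with rfl | h
              · exact Or.inl (Finset.mem_insert_self _ _)
              · exact Or.inr (Or.inr (List.mem_append_right _ h))
          · exact Or.inr (Or.inr (List.mem_append_left _ ((hmem _).2 ⟨hxy, hy⟩)))
        · rcases h5 x hx y hxy with h | h | h
          · exact Or.inl (Finset.mem_insert_of_mem h)
          · exact Or.inr (Or.inl h)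
          · rcases List.mem_cons.1 h with rfl | h
            · exact Or.inl (Finset.mem_insert_self _ _)
            · exact Or.inr (Or.inr (List.mem_append_right _ h)))
    -- exclusion of `c`
    obtain ⟨F2, hF2, hF2'⟩ := cntA_sound fuel _ _ _ _ e2 cur (insert c X) hne
      (by
        intro y hy
        rcases h1 y hy with h | h | h
        · exact Or.inl h
        · exact Or.inr (Or.inl (Set.mem_insert_of_mem _ h))
        · rcases List.mem_cons.1 h with rfl | h
          · exact Or.inr (Or.inl (Set.mem_insert _ _))
          · exact Or.inr (Or.inr h))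
      (by
        intro y hy
        exact h2 y (List.mem_cons_of_mem _ hy))
      h3 (List.nodup_cons.1 h4).2
      (by
        intro x hx y hxy
        rcases h5 x hx y hxy with h | h | h
        · exact Or.inl h
        · exact Or.inr (Or.inl (Set.mem_insert_of_mem _ h))
        · rcases List.mem_cons.1 h with rfl | h
          · exact Or.inr (Or.inl (Set.mem_insert _ _))
          · exact Or.inr (Or.inr h))
    classical
    refine ⟨F1 ∪ F2, (Finset.card_union_le _ _).trans (by omega), ?_⟩
    intro C hC hX hcard hconn
    rw [Finset.mem_union]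
    by_cases hcC : c ∈ C
    · left
      refine hF1' C ?_ hX ?_ hconn
      · intro y hy
        rcases Finset.mem_insert.1 hy with rfl | hy
        · exact hcC
        · exact hC hy
      · rw [Finset.card_insert_of_notMem hcc]
        omega
    · right
      refine hF2' C hC ?_ hcard hconn
      intro y hy
      rcases hy with rfl | hy
      · exact hcC
      · exact hX y hy

/-- The bound for sets containing `B` and avoiding `W`. -/
theorem cntA_bound (fuel N k : ℕ) (B W : List (ℤ × ℤ)) (hB : B ≠ []) (hBn : B.Nodup)
    (h : cntA fuel ((B.flatMap nbrs).dedup.filter (fun y => !((B ++ W).contains y)) ++ (B ++ W))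
      ((B.flatMap nbrs).dedup.filter (fun y => !((B ++ W).contains y))) k = some N) :
    ∃ F : Finset (Finset (ℤ × ℤ)), F.card ≤ N ∧ ∀ C : Finset (ℤ × ℤ), (∀ y ∈ B, y ∈ C) →
      (∀ y ∈ W, y ∉ C) → C.card = B.length + k → EdgeConn (C : Set (ℤ × ℤ)) → C ∈ F := by
  classical
  set U := (B.flatMap nbrs).dedup.filter (fun y => !((B ++ W).contains y)) with hU
  have hmem : ∀ y, y ∈ U ↔ (∃ x ∈ B, Adj x y) ∧ y ∉ B ∧ y ∉ W := by
    intro y
    simp [hU, List.mem_filter, mem_nbrs]
  obtain ⟨F, hF, hF'⟩ := cntA_sound fuel _ _ _ _ h B.toFinset {y | y ∈ W}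
    (by
      obtain ⟨b, B', rfl⟩ := List.exists_cons_of_ne_nil hB
      exact ⟨b, by simp⟩)
    (by
      intro y hy
      rw [List.mem_append, List.mem_append] at hy
      rcases hy with hy | hy | hy
      · exact Or.inr (Or.inr hy)
      · exact Or.inl (List.mem_toFinset.2 hy)
      · exact Or.inr (Or.inl hy))
    (by
      intro y hy
      refine ⟨?_, List.mem_append_left _ hy⟩
      rw [List.mem_toFinset]
      exact ((hmem y).1 hy).2.1)
    (by
      intro y hy
      exact List.mem_append_right _ (List.mem_append_left _ (List.mem_toFinset.1 hy)))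
    ((List.nodup_dedup _).filter _)
    (by
      intro x hx y hxy
      by_cases h1 : y ∈ B
      · exact Or.inl (List.mem_toFinset.2 h1)
      by_cases h2 : y ∈ W
      · exact Or.inr (Or.inl h2)
      · exact Or.inr (Or.inr ((hmem y).2 ⟨⟨x, List.mem_toFinset.1 hx, hxy⟩, h1, h2⟩)))
  refine ⟨F, hF, ?_⟩
  intro C h1 h2 h3 h4
  apply hF' C
  · intro y hy
    exact h1 y (List.mem_toFinset.1 hy)
  · exact h2
  · rw [List.toFinset_card_of_nodup hBn]
    exact h3
  · exact h4

end Omino
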