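import Pool.Agent.Lib.MP_8bb6bd_co.Defs

/-!
# Edge-connectivity of sets of cells
-/

namespace Omino

theorem Adj.symm {a b : ℤ × ℤ} (h : Adj a b) : Adj b a := by
  unfold Adj at *
  rw [abs_sub_comm b.1, abs_sub_comm b.2]
  exact h

theorem Adj.ne {a b : ℤ × ℤ} (h : Adj a b) : a ≠ b := by
  rintro rfl
  unfold Adj at h
  simp at h

/-- The step relation of a set of cells. -/
def Lk (A : Set (ℤ × ℤ)) (x y : ℤ × ℤ) : Prop := Adj x y ∧ x ∈ A ∧ y ∈ A

theorem Lk.symm {A : Set (ℤ × ℤ)} {x y : ℤ × ℤ} (h : Lk A x y) : Lk A y x :=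
  ⟨h.1.symm, h.2.2, h.2.1⟩

theorem rtg_symm {A : Set (ℤ × ℤ)} {x y : ℤ × ℤ} (h : Relation.ReflTransGen (Lk A) x y) :
    Relation.ReflTransGen (Lk A) y x := by
  induction h with
  | refl => exact Relation.ReflTransGen.refl
  | tail _ h ih => exact Relation.ReflTransGen.head h.symm ih

theorem edgeConn_iff {A : Set (ℤ × ℤ)} :
    EdgeConn A ↔ ∀ a ∈ A, ∀ b ∈ A, Relation.ReflTransGen (Lk A) a b := Iff.rfl

/-- A connected set meeting `V` and not contained in `V` has an edge leaving `V`. -/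
theorem exit {A V : Set (ℤ × ℤ)} (hA : EdgeConn A) {a b : ℤ × ℤ} (ha : a ∈ A) (haV : a ∈ V)
    (hb : b ∈ A) (hbV : b ∉ V) : ∃ x y, x ∈ A ∧ y ∈ A ∧ Adj x y ∧ x ∈ V ∧ y ∉ V := by
  have h := hA a ha b hb
  induction h with
  | refl => exact absurd haV hbV
  | @tail x y _ hxy ih =>
    by_cases hx : x ∈ V
    · exact ⟨x, y, hxy.2.1, hxy.2.2, hxy.1, hx, hbV⟩
    · exact ih hxy.2.1 hx

theorem edgeConn_of_base {A : Set (ℤ × ℤ)} {b : ℤ × ℤ}
    (h : ∀ a ∈ A, Relation.ReflTransGen (Lk A) a b) : EdgeConn A :=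
  fun a ha c hc => (h a ha).trans (rtg_symm (h c hc))

/-- A set of cells with a descending flow to a base cell is connected. -/
theorem edgeConn_of_flow {A : Set (ℤ × ℤ)} {b : ℤ × ℤ} (d : ℤ × ℤ → ℕ)
    (h : ∀ x ∈ A, x ≠ b → ∃ y ∈ A, Adj x y ∧ d y < d x) : EdgeConn A := by
  apply edgeConn_of_base (b := b)
  intro a ha
  induction hk : d a using Nat.strong_induction_on generalizing a with
  | _ k ih =>
    by_cases hab : a = b
    · rw [hab]
    · obtain ⟨y, hy, hay, hd⟩ := h a ha hab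
      exact Relation.ReflTransGen.head ⟨hay, ha, hy⟩ (ih (d y) (hk ▸ hd) y hy rfl)

theorem edgeConn_univ : EdgeConn (Set.univ : Set (ℤ × ℤ)) := by
  apply edgeConn_of_flow (b := (0, 0)) (fun x => x.1.natAbs + x.2.natAbs)
  rintro ⟨x, y⟩ - hne
  simp only [Set.mem_univ, true_and, Prod.exists]
  have hne' : x ≠ 0 ∨ y ≠ 0 := by
    by_contra hcon
    push Not at hcon
    exact hne (by rw [hcon.1, hcon.2])
  rcases lt_trichotomy x 0 with hx | hx | hx
  · exact ⟨x + 1, y, by simp [Adj], by omega⟩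
  · rcases lt_trichotomy y 0 with hy | hy | hy
    · exact ⟨x, y + 1, by simp [Adj], by omega⟩
    · omega
    · exact ⟨x, y - 1, by simp [Adj], by omega⟩
  · exact ⟨x - 1, y, by simp [Adj], by omega⟩

/-- Adding to a connected set a cell adjacent to it keeps it connected. -/
theorem edgeConn_insert {P : Set (ℤ × ℤ)} (hP : EdgeConn P) {c d : ℤ × ℤ} (hd : d ∈ P)
    (hcd : Adj c d) : EdgeConn (insert c P) := by
  have hmono : ∀ x y, Relation.ReflTransGen (Lk P) x y →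
      Relation.ReflTransGen (Lk (insert c P)) x y := fun x y h =>
    Relation.ReflTransGen.mono (r := Lk P) (p := Lk (insert c P)) (fun a b hab =>
      ⟨hab.1, Set.mem_insert_of_mem _ hab.2.1, Set.mem_insert_of_mem _ hab.2.2⟩) _ _ h
  apply edgeConn_of_base (b := d)
  intro a ha
  rcases ha with rfl | ha
  · exact Relation.ReflTransGen.single
      ⟨hcd, Set.mem_insert _ _, Set.mem_insert_of_mem _ hd⟩
  · exact hmono _ _ (hP a ha d hd)

theorem edgeConn_singleton (c : ℤ × ℤ) : EdgeConn ({c} : Set (ℤ × ℤ)) := by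
  rintro a rfl b rfl
  exact Relation.ReflTransGen.refl

theorem adj_iff {x y : ℤ × ℤ} : Adj x y ↔
    y = (x.1 + 1, x.2) ∨ y = (x.1, x.2 + 1) ∨ y = (x.1 - 1, x.2) ∨ y = (x.1, x.2 - 1) := by
  obtain ⟨a, b⟩ := x
  obtain ⟨c, d⟩ := y
  simp only [Adj, Prod.mk.injEq]
  constructor
  · intro h
    rcases abs_cases (a - c) with ⟨h1, _⟩ | ⟨h1, _⟩ <;>
    rcases abs_cases (b - d) with ⟨h2, _⟩ | ⟨h2, _⟩ <;> omega
  · rintro (⟨rfl, rfl⟩ | ⟨rfl, rfl⟩ | ⟨rfl, rfl⟩ | ⟨rfl, rfl⟩) <;> simp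

/-- Two free neighbours of `c` around a common free diagonal cell are linked. -/
theorem link2 {A : Set (ℤ × ℤ)} {x y z : ℤ × ℤ} (hx : x ∈ A) (hy : y ∈ A) (hz : z ∈ A)
    (h1 : Adj x z) (h2 : Adj z y) : Relation.ReflTransGen (Lk A) x y :=
  Relation.ReflTransGen.head ⟨h1, hx, hz⟩ (Relation.ReflTransGen.single ⟨h2, hz, hy⟩)

/-- Removing from a connected set `A` a cell whose free neighbours are locally linked keeps it
connected. -/
theorem edgeConn_diff {A : Set (ℤ × ℤ)} (hA : EdgeConn A) (a b : ℤ)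
    (hNE : (a + 1, b) ∈ A → (a, b + 1) ∈ A → (a + 1, b + 1) ∈ A)
    (hNW : (a - 1, b) ∈ A → (a, b + 1) ∈ A → (a - 1, b + 1) ∈ A)
    (hSW : (a - 1, b) ∈ A → (a, b - 1) ∈ A → (a - 1, b - 1) ∈ A)
    (hSE : (a + 1, b) ∈ A → (a, b - 1) ∈ A → (a + 1, b - 1) ∈ A)
    (hEW : (a + 1, b) ∈ A → (a - 1, b) ∈ A → (a, b + 1) ∈ A ∨ (a, b - 1) ∈ A)
    (hNS : (a, b + 1) ∈ A → (a, b - 1) ∈ A → (a + 1, b) ∈ A ∨ (a - 1, b) ∈ A) :
    EdgeConn (A \ {(a, b)}) := by
  have hmem : ∀ x y : ℤ, (x, y) ∈ A → ¬ (x = a ∧ y = b) → (x, y) ∈ A \ {(a, b)} := by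
    intro x y h h'
    refine ⟨h, ?_⟩
    simpa using h'
  have mE : (a + 1, b) ∈ A → (a + 1, b) ∈ A \ {(a, b)} := fun h => hmem _ _ h (by omega)
  have mN : (a, b + 1) ∈ A → (a, b + 1) ∈ A \ {(a, b)} := fun h => hmem _ _ h (by omega)
  have mW : (a - 1, b) ∈ A → (a - 1, b) ∈ A \ {(a, b)} := fun h => hmem _ _ h (by omega)
  have mS : (a, b - 1) ∈ A → (a, b - 1) ∈ A \ {(a, b)} := fun h => hmem _ _ h (by omega)
  have lEN : (a + 1, b) ∈ A → (a, b + 1) ∈ A →
      Relation.ReflTransGen (Lk (A \ {(a, b)})) (a + 1, b) (a, b + 1) := fun h1 h2 =>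
    link2 (z := (a + 1, b + 1)) (mE h1) (mN h2) (hmem _ _ (hNE h1 h2) (by omega))
      (by simp [Adj]) (by simp [Adj])
  have lWN : (a - 1, b) ∈ A → (a, b + 1) ∈ A →
      Relation.ReflTransGen (Lk (A \ {(a, b)})) (a - 1, b) (a, b + 1) := fun h1 h2 =>
    link2 (z := (a - 1, b + 1)) (mW h1) (mN h2) (hmem _ _ (hNW h1 h2) (by omega))
      (by simp [Adj]) (by simp [Adj])
  have lWS : (a - 1, b) ∈ A → (a, b - 1) ∈ A →
      Relation.ReflTransGen (Lk (A \ {(a, b)})) (a - 1, b) (a, b - 1) := fun h1 h2 =>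
    link2 (z := (a - 1, b - 1)) (mW h1) (mS h2) (hmem _ _ (hSW h1 h2) (by omega))
      (by simp [Adj]) (by simp [Adj])
  have lES : (a + 1, b) ∈ A → (a, b - 1) ∈ A →
      Relation.ReflTransGen (Lk (A \ {(a, b)})) (a + 1, b) (a, b - 1) := fun h1 h2 =>
    link2 (z := (a + 1, b - 1)) (mE h1) (mS h2) (hmem _ _ (hSE h1 h2) (by omega))
      (by simp [Adj]) (by simp [Adj])
  have lEW : (a + 1, b) ∈ A → (a - 1, b) ∈ A →
      Relation.ReflTransGen (Lk (A \ {(a, b)})) (a + 1, b) (a - 1, b) := fun h1 h2 => by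
    rcases hEW h1 h2 with h | h
    · exact (lEN h1 h).trans (rtg_symm (lWN h2 h))
    · exact (lES h1 h).trans (rtg_symm (lWS h2 h))
  have lNS : (a, b + 1) ∈ A → (a, b - 1) ∈ A →
      Relation.ReflTransGen (Lk (A \ {(a, b)})) (a, b + 1) (a, b - 1) := fun h1 h2 => by
    rcases hNS h1 h2 with h | h
    · exact (rtg_symm (lEN h h1)).trans (lES h h2)
    · exact (rtg_symm (lWN h h1)).trans (lWS h h2)
  have link : ∀ x ∈ A, ∀ y ∈ A, Adj (a, b) x → Adj (a, b) y →
      Relation.ReflTransGen (Lk (A \ {(a, b)})) x y := by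
    intro x hx y hy h1 h2
    rcases adj_iff.1 h1 with rfl | rfl | rfl | rfl <;>
    rcases adj_iff.1 h2 with rfl | rfl | rfl | rfl
    · exact Relation.ReflTransGen.refl
    · exact lEN hx hy
    · exact lEW hx hy
    · exact lES hx hy
    · exact rtg_symm (lEN hy hx)
    · exact Relation.ReflTransGen.refl
    · exact rtg_symm (lWN hy hx)
    · exact lNS hx hy
    · exact rtg_symm (lEW hy hx)
    · exact lWN hx hy
    · exact Relation.ReflTransGen.refl
    · exact lWS hx hy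
    · exact rtg_symm (lES hy hx)
    · exact rtg_symm (lNS hy hx)
    · exact rtg_symm (lWS hy hx)
    · exact Relation.ReflTransGen.refl
  rintro p ⟨hp, hpc⟩ q ⟨hq, hqc⟩
  have key : ∀ x, Relation.ReflTransGen (Lk A) p x →
      (x ≠ (a, b) → Relation.ReflTransGen (Lk (A \ {(a, b)})) p x) ∧
      (x = (a, b) → ∀ y ∈ A, Adj (a, b) y →
        Relation.ReflTransGen (Lk (A \ {(a, b)})) p y) := by
    intro x hx
    induction hx with
    | refl =>
      exact ⟨fun _ => Relation.ReflTransGen.refl, fun h => absurd h hpc⟩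
    | @tail x z _ hxz ih =>
      constructor
      · intro hz
        by_cases hx : x = (a, b)
        · exact ih.2 hx z hxz.2.2 (hx ▸ hxz.1)
        · exact (ih.1 hx).tail ⟨hxz.1, ⟨hxz.2.1, hx⟩, ⟨hxz.2.2, hz⟩⟩
      · intro hz y hy hay
        have hx : x ≠ (a, b) := by
          rintro rfl
          exact hxz.1.ne hz.symm
        exact (ih.1 hx).trans (link x hxz.2.1 y hy (hz ▸ hxz.1.symm) hay)
  exact (key q (hA p hp q hq)).1 hqc

/-! ### A decidable sufficient condition -/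

/-- The cell `c` may be added to the cells of `P`: `c` is not in `P`, and the free neighbours of
`c` are locally linked. -/
def okAdd (P : List (ℤ × ℤ)) (c : ℤ × ℤ) : Bool :=
  !(P.contains c) &&
  (P.contains (c.1 + 1, c.2) || P.contains (c.1, c.2 + 1) || !(P.contains (c.1 + 1, c.2 + 1))) &&
  (P.contains (c.1 - 1, c.2) || P.contains (c.1, c.2 + 1) || !(P.contains (c.1 - 1, c.2 + 1))) &&
  (P.contains (c.1 - 1, c.2) || P.contains (c.1, c.2 - 1) || !(P.contains (c.1 - 1, c.2 - 1))) &&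
  (P.contains (c.1 + 1, c.2) || P.contains (c.1, c.2 - 1) || !(P.contains (c.1 + 1, c.2 - 1))) &&
  (P.contains (c.1 + 1, c.2) || P.contains (c.1 - 1, c.2) ||
    !(P.contains (c.1, c.2 + 1)) || !(P.contains (c.1, c.2 - 1))) &&
  (P.contains (c.1, c.2 + 1) || P.contains (c.1, c.2 - 1) ||
    !(P.contains (c.1 + 1, c.2)) || !(P.contains (c.1 - 1, c.2)))

/-- `c` is adjacent to a cell of `P`. -/
def hasNbr (P : List (ℤ × ℤ)) (c : ℤ × ℤ) : Bool :=
  P.contains (c.1 + 1, c.2) || P.contains (c.1, c.2 + 1) || P.contains (c.1 - 1, c.2) ||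
    P.contains (c.1, c.2 - 1)

/-- The list can be built cell by cell (from its end) by admissible additions. -/
def build : List (ℤ × ℤ) → Bool
  | [] => true
  | c :: P => build P && okAdd P c && (P.isEmpty || hasNbr P c)

theorem build_sound : ∀ P : List (ℤ × ℤ), build P = true →
    P.Nodup ∧ EdgeConn {c | c ∈ P} ∧ EdgeConn {c | c ∈ P}ᶜ
  | [], _ => by
    refine ⟨List.nodup_nil, ?_, ?_⟩
    · intro a ha
      simp at ha
    · have : ({c | c ∈ ([] : List (ℤ × ℤ))}ᶜ : Set (ℤ × ℤ)) = Set.univ := by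
        ext c; simp
      rw [this]
      exact edgeConn_univ
  | (a, b) :: P, h => by
    simp only [build, Bool.and_eq_true] at h
    obtain ⟨⟨hb, hok⟩, hn⟩ := h
    obtain ⟨hnd, hc, hcc⟩ := build_sound P hb
    simp only [okAdd, Bool.and_eq_true, Bool.or_eq_true, Bool.not_eq_true', List.contains_iff_mem,
      ← Bool.not_eq_true] at hok
    obtain ⟨⟨⟨⟨⟨⟨h0, h1⟩, h2⟩, h3⟩, h4⟩, h5⟩, h6⟩ := hok
    refine ⟨List.nodup_cons.2 ⟨h0, hnd⟩, ?_, ?_⟩
    · have e : {c | c ∈ (a, b) :: P} = insert (a, b) {c | c ∈ P} := by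
        ext c; simp
      rw [e]
      rcases List.eq_nil_or_concat P with rfl | ⟨_, _, rfl⟩
      · have : (insert (a, b) {c | c ∈ ([] : List (ℤ × ℤ))} : Set (ℤ × ℤ)) = {(a, b)} := by
          ext c; simp
        rw [this]
        exact edgeConn_singleton _
      · simp only [List.isEmpty_iff, Bool.or_eq_true, hasNbr, List.contains_iff_mem] at hn
        rcases hn with hn | ((hn | hn) | hn) | hn
        · simp at hn
        · exact edgeConn_insert hc hn (by simp [Adj])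
        · exact edgeConn_insert hc hn (by simp [Adj])
        · exact edgeConn_insert hc hn (by simp [Adj])
        · exact edgeConn_insert hc hn (by simp [Adj])
    · have e : {c | c ∈ (a, b) :: P}ᶜ = {c | c ∈ P}ᶜ \ {(a, b)} := by
        ext c; simp [not_or, and_comm]
      rw [e]
      have m : ∀ c : ℤ × ℤ, c ∈ {c | c ∈ P}ᶜ ↔ c ∉ P := fun c => Iff.rfl
      apply edgeConn_diff hcc a b
      · rw [m, m, m]; clear h2 h3 h4 h5 h6; tauto
      · rw [m, m, m]; clear h1 h3 h4 h5 h6; tauto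
      · rw [m, m, m]; clear h1 h2 h4 h5 h6; tauto
      · rw [m, m, m]; clear h1 h2 h3 h5 h6; tauto
      · rw [m, m, m, m]; clear h1 h2 h3 h4 h6; tauto
      · rw [m, m, m, m]; clear h1 h2 h3 h4 h5; tauto

end Omino
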