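import Pool.Agent.Lib.MP_8bb6bd_co.Main
import Pool.Agent.Lib.MP_8bb6bd_co.Animals

/-!
# A decidable criterion
-/

namespace Omino

/-! ### A translation invariant hash -/

/-- The cube of an integer. -/
def cube : ℤ → ℤ
  | Int.ofNat n => Int.ofNat (n * (n * n))
  | Int.negSucc n => -Int.ofNat ((n + 1) * ((n + 1) * (n + 1)))

/-- A polynomial hash of a vector. -/
def fh (u : ℤ × ℤ) : ℤ := cube (u.1 + 1000 * u.2 + 17)

/-- The hash of the image under `h` of a finite set of cells. -/
def hF (P : Finset (ℤ × ℤ)) (h : D4) : ℤ :=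
  ∑ c ∈ P, fh (act h (P.card • c - ∑ x ∈ P, x))

/-- The action as an additive map. -/
def actHom (h : D4) : ℤ × ℤ →+ ℤ × ℤ where
  toFun := act h
  map_zero' := act_zero h
  map_add' := act_add h

theorem hF_mvF (P : Finset (ℤ × ℤ)) (g h : D4) (t : ℤ × ℤ) :
    hF (mvF g t P) h = hF P (mul h g) := by
  unfold hF
  rw [card_mvF, mvF, Finset.sum_map, Finset.sum_map]
  refine Finset.sum_congr rfl fun c _ => ?_
  congr 1
  have h1 : ∑ x ∈ P, (mv g t).toEmbedding x = act g (∑ x ∈ P, x) + P.card • t := by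
    have : ∀ x ∈ P, (mv g t).toEmbedding x = actHom g x + t := fun x _ => rfl
    rw [Finset.sum_congr rfl this, Finset.sum_add_distrib, ← map_sum, Finset.sum_const]
    rfl
  have h2 : (mv g t).toEmbedding c = act g c + t := rfl
  have h3 : P.card • act g c = act g (P.card • c) := (map_nsmul (actHom g) P.card c).symm
  rw [h1, h2, smul_add, add_sub_add_right_eq_sub, h3, ← act_sub, act_mul]

/-- The hash for lists. -/
def hL (P : List (ℤ × ℤ)) (h : D4) : ℤ :=
  (P.map fun c => fh (act h ((P.length : ℤ) * c.1 - (P.map Prod.fst).sum,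
    (P.length : ℤ) * c.2 - (P.map Prod.snd).sum))).sum

theorem sum_pair : ∀ P : List (ℤ × ℤ),
    (P.map (fun x : ℤ × ℤ => x)).sum = ((P.map Prod.fst).sum, (P.map Prod.snd).sum)
  | [] => rfl
  | x :: P => by
    rw [List.map_cons, List.sum_cons, sum_pair P]
    rfl

theorem hL_eq {P : List (ℤ × ℤ)} (hP : P.Nodup) (h : D4) : hF P.toFinset h = hL P h := by
  unfold hF hL
  rw [List.sum_toFinset _ hP, List.toFinset_card_of_nodup hP, List.sum_toFinset _ hP]
  congr 1
  apply List.map_congr_left
  intro c _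
  congr 2
  rw [sum_pair]
  ext <;> simp

/-- The non trivial elements of `D4`. -/
def nonId : List D4 :=
  [(false, false, true), (false, true, false), (false, true, true), (true, false, false),
    (true, false, true), (true, true, false), (true, true, true)]

theorem mem_nonId {h : D4} (hh : h ≠ one) : h ∈ nonId := by
  revert h; decide

/-- The list has no repetition. -/
def ndup : List ℤ → Bool
  | [] => true
  | x :: l => !(l.contains x) && ndup l

theorem ndup_sound : ∀ l : List ℤ, ndup l = true → l.Nodup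
  | [], _ => List.nodup_nil
  | x :: l, h => by
    simp only [ndup, Bool.and_eq_true, Bool.not_eq_true', ← Bool.not_eq_true,
      List.contains_iff_mem] at h
    exact List.nodup_cons.2 ⟨h.1, ndup_sound l h.2⟩

/-- A congruence invariant of finite sets of cells. -/
def iF (P : Finset (ℤ × ℤ)) : ℤ := ∑ h : D4, hF P h * hF P h

theorem iF_mvF (P : Finset (ℤ × ℤ)) (g : D4) (t : ℤ × ℤ) : iF (mvF g t P) = iF P := by
  unfold iF
  refine Fintype.sum_bijective (fun h => mul h g) ?_ _ _ fun h => by rw [hF_mvF]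
  refine Function.bijective_iff_has_inverse.2 ⟨fun h => mul h (inv g), fun h => ?_, fun h => ?_⟩
  · simp only
    rw [mul_assoc', mul_inv, mul_one']
  · simp only
    rw [mul_assoc', inv_mul, mul_one']

/-- The invariant for lists. -/
def iL (P : List (ℤ × ℤ)) : ℤ :=
  hL P one * hL P one + (nonId.map fun h => hL P h * hL P h).sum

theorem iL_eq {P : List (ℤ × ℤ)} (hP : P.Nodup) : iF P.toFinset = iL P := by
  unfold iF iL
  have e : (Finset.univ : Finset D4) = (one :: nonId).toFinset := by decide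
  rw [e, List.sum_toFinset _ (by decide), List.map_cons, List.sum_cons, hL_eq hP]
  congr 2
  apply List.map_congr_left
  intro h _
  rw [hL_eq hP]

/-- The number of fillers, computed by Redelmeier's algorithm. -/
def cntB (B W : List (ℤ × ℤ)) (k : ℕ) : Option ℕ :=
  cntA 500 ((B.flatMap nbrs).dedup.filter (fun y => !((B ++ W).contains y)) ++ (B ++ W))
      ((B.flatMap nbrs).dedup.filter (fun y => !((B ++ W).contains y))) k

/-- The geometric part of the check: the chamber `S` with gate `g` and wall `W`. -/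
def check1 (n : ℕ) (S W : List (ℤ × ℤ)) (g v0 : ℤ × ℤ) : Bool :=
  S.all (fun x => (S.contains (x.1 - 1, x.2) || W.contains (x.1 - 1, x.2)) &&
    (S.contains (x.1, x.2 + 1) || W.contains (x.1, x.2 + 1)) &&
    (nbrs x).all (fun y => S.contains y || W.contains y || y == g)) &&
  decide (g :: S).Nodup && decide (n < 2 * S.length) && decide (S.length < n) &&
  S.contains v0 && W.contains (v0.1 - 1, v0.2) && W.contains (v0.1, v0.2 - 1)

/-- The pockets are admissible. -/
def check2 (n : ℕ) (S W : List (ℤ × ℤ)) (Es : List (List (ℤ × ℤ))) : Bool :=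
  Es.all (fun E => decide ((E ++ W).length = n) && build (E ++ W) &&
    S.all (fun x => !((E ++ W).contains x)))

/-- The pockets are pairwise non congruent and asymmetric. -/
def check3 (W : List (ℤ × ℤ)) (Es : List (List (ℤ × ℤ))) : Bool :=
  ndup (Es.map fun E => iL (E ++ W)) &&
  Es.all (fun E => !((nonId.map (hL (E ++ W))).contains (hL (E ++ W) one)))

theorem no_tiling_of_check {n : ℕ} (S W : List (ℤ × ℤ)) (g v0 : ℤ × ℤ)
    (Es : List (List (ℤ × ℤ))) (N : ℕ) (h1 : check1 n S W g v0 = true)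
    (h2 : cntB (g :: S) W (n - (S.length + 1)) = some N) (hN : N < Es.length)
    (h3 : check2 n S W Es = true)
    (h4 : check3 W Es = true)
    (k : SetKind) (𝒜 : Set (Set ℂ)) (hA : IsPatch (motions k) n 𝒜) : ¬ TilesPlane (⋃₀ 𝒜) := by
  simp only [check1, Bool.and_eq_true, List.all_eq_true, Bool.or_eq_true, List.contains_iff_mem,
    decide_eq_true_eq, beq_iff_eq] at h1
  obtain ⟨⟨⟨⟨⟨⟨a1, a2⟩, a3⟩, a4⟩, a5⟩, a6⟩, a7⟩ := h1
  obtain ⟨F, hF1, hF2⟩ := cntA_bound 500 N (n - (S.length + 1)) (g :: S) W (by simp) a2 h2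
  simp only [check2, Bool.and_eq_true, List.all_eq_true, decide_eq_true_eq, Bool.not_eq_true',
    ← Bool.not_eq_true, List.contains_iff_mem] at h3
  simp only [check3, Bool.and_eq_true, List.all_eq_true, Bool.not_eq_true',
    ← Bool.not_eq_true, List.contains_iff_mem] at h4
  obtain ⟨b1, b2⟩ := h4
  have b1' := ndup_sound _ b1
  have hcardS : S.toFinset.card = S.length :=
    List.toFinset_card_of_nodup (List.nodup_cons.1 a2).2
  set Q : Fin Es.length → Finset (ℤ × ℤ) := fun a => (Es.get a ++ W).toFinset with hQ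
  have hE : ∀ a : Fin Es.length, Es.get a ∈ Es := fun a => List.get_mem Es a
  have hnd : ∀ a : Fin Es.length, (Es.get a ++ W).Nodup := fun a =>
    (build_sound _ (h3 _ (hE a)).1.2).1
  refine no_tiling_pocket (n := n) S.toFinset W.toFinset g (v0 := v0) ?_ ?_ ?_ ?_ ?_ ?_ ?_ ?_ F
    ?_ (m := Es.length) (hF1.trans_lt hN) Q ?_ ?_ ?_ ?_ k 𝒜 hA
  · intro x hx
    rw [List.mem_toFinset] at hx ⊢
    rw [List.mem_toFinset]
    exact (a1 x hx).1.1
  · intro x hx
    rw [List.mem_toFinset] at hx ⊢
    rw [List.mem_toFinset]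
    exact (a1 x hx).1.2
  · intro x hx y hxy
    rw [List.mem_toFinset] at hx ⊢
    rw [List.mem_toFinset]
    have := (a1 x hx).2 y (mem_nbrs.2 hxy)
    tauto
  · rw [hcardS]
    exact a3
  · rw [hcardS]
    exact a4
  · rw [List.mem_toFinset]
    exact a5
  · rw [List.mem_toFinset]
    exact a6
  · rw [List.mem_toFinset]
    exact a7
  · intro C c1 c2 c3 c4 c5
    apply hF2 C
    · intro y hy
      rcases List.mem_cons.1 hy with rfl | hy
      · exact c2
      · exact c1 y (List.mem_toFinset.2 hy)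
    · intro y hy
      exact c3 y (List.mem_toFinset.2 hy)
    · rw [c4, List.length_cons]
      omega
    · exact c5
  · intro a
    obtain ⟨_, d2, d3⟩ := build_sound _ (h3 _ (hE a)).1.2
    have e : ((Q a : Finset (ℤ × ℤ)) : Set (ℤ × ℤ)) = {c | c ∈ Es.get a ++ W} := by
      ext c
      simp [hQ]
    refine ⟨?_, ?_, ?_⟩
    · rw [hQ]
      simp only
      rw [List.toFinset_card_of_nodup (hnd a)]
      exact (h3 _ (hE a)).1.1
    · rw [e]; exact d2
    · rw [e]; exact d3
  · intro a x hx
    rw [hQ]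
    simp only
    rw [List.mem_toFinset] at hx ⊢
    exact List.mem_append_right _ hx
  · intro a x hx
    rw [hQ]
    simp only
    rw [List.mem_toFinset] at hx ⊢
    exact (h3 _ (hE a)).2 x hx
  · intro a b h t hab
    have e3 : (Es.map fun E => iL (E ++ W)).get ⟨a, by simp⟩ =
        (Es.map fun E => iL (E ++ W)).get ⟨b, by simp⟩ := by
      simp only [List.get_eq_getElem, List.getElem_map]
      have e1 := iF_mvF (Q a) h t
      rw [hab] at e1
      have e4 : iF (Q b) = iL (Es.get b ++ W) := iL_eq (hnd b)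
      have e5 : iF (Q a) = iL (Es.get a ++ W) := iL_eq (hnd a)
      rw [e4, e5] at e1
      exact e1.symm
    have e4 := (List.Nodup.get_inj_iff b1').1 e3
    obtain rfl : a = b := Fin.ext (by simpa using e4)
    refine ⟨rfl, ?_⟩
    by_contra hh
    refine b2 _ (hE a) (List.mem_map.2 ⟨h, mem_nonId hh, ?_⟩)
    rw [← hL_eq (hnd a), ← hL_eq (hnd a)]
    have := hF_mvF (Q a) h one t
    rw [hab, one_mul'] at this
    exact this.symm

/-- A block of cells. -/
def blk (a b : ℕ) : List (ℤ × ℤ) :=
  (List.range a).flatMap fun x => (List.range b).map fun y => ((x + 1 : ℤ), (y + 1 : ℤ))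

/-- The wall around the block, open at the lower right corner. -/
def wall (a b : ℕ) : List (ℤ × ℤ) :=
  ((List.range (b - 1)).map fun y => ((a : ℤ) + 1, (y : ℤ) + 2)) ++ [((a : ℤ) + 1, (b : ℤ) + 1)] ++
  ((List.range a).map fun x => ((a : ℤ) - x, (b : ℤ) + 1)) ++ [(0, (b : ℤ) + 1)] ++
  ((List.range b).map fun y => (0, (b : ℤ) - y)) ++ [(0, 0)] ++
  ((List.range (a - 1)).map fun x => ((x : ℤ) + 1, 0))

/-- The chamber. -/
def chamber (a b : ℕ) : List (ℤ × ℤ) := (blk a b).filter fun c => !(c == ((a : ℤ), (1 : ℤ)))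

end Omino
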