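import Pool.Agent.Lib.MP_8bb6bd_co.Tiling

/-!
# A counting argument: a bounded displacement injection contradicts quadratic growth
-/

namespace Omino

open Filter Topology

theorem poly_lt_pow (f : ℕ) (A B : ℕ) : ∃ j : ℕ, f ^ j * (A * j + B) ^ 2 < (f + 1) ^ j := by
  set r : ℝ := (f : ℝ) / (f + 1) with hr
  have hf : (0 : ℝ) ≤ f := Nat.cast_nonneg f
  have hr0 : 0 ≤ r := by positivity
  have hr1 : |r| < 1 := by
    rw [abs_of_nonneg hr0, hr, div_lt_one (by positivity)]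
    linarith
  have h1 := tendsto_pow_const_mul_const_pow_of_abs_lt_one 2 hr1
  have h2 : Tendsto (fun n : ℕ => ((A : ℝ) + B) ^ 2 * ((n : ℝ) ^ 2 * r ^ n)) atTop (𝓝 0) := by
    have := h1.const_mul (((A : ℝ) + B) ^ 2)
    rwa [mul_zero] at this
  have h3 := (h2.eventually (gt_mem_nhds (show (0 : ℝ) < 1 by norm_num))).and
    (eventually_ge_atTop 1)
  obtain ⟨j, hj, hj1⟩ := h3.exists
  refine ⟨j, ?_⟩
  have hj1' : (1 : ℝ) ≤ j := by exact_mod_cast hj1
  have h4 : (f : ℝ) ^ j * (A * j + B) ^ 2 < (f + 1) ^ j := by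
    have hA : (0 : ℝ) ≤ A := Nat.cast_nonneg A
    have hB : (0 : ℝ) ≤ B := Nat.cast_nonneg B
    have h5 : ((A : ℝ) * j + B) ^ 2 ≤ (A + B) ^ 2 * j ^ 2 := by
      rw [← mul_pow]
      apply pow_le_pow_left₀ (by positivity)
      nlinarith
    have h6 : r ^ j = (f : ℝ) ^ j / (f + 1) ^ j := by rw [hr, div_pow]
    have h7 : (0 : ℝ) < (f + 1) ^ j := by positivity
    have h8 : ((A : ℝ) + B) ^ 2 * ((j : ℝ) ^ 2 * ((f : ℝ) ^ j / (f + 1) ^ j)) < 1 := by
      rw [← h6]; exact hj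
    have h9 : ((A : ℝ) + B) ^ 2 * (j : ℝ) ^ 2 * (f : ℝ) ^ j < (f + 1) ^ j := by
      have : ((A : ℝ) + B) ^ 2 * ((j : ℝ) ^ 2 * ((f : ℝ) ^ j / (f + 1) ^ j)) =
        ((A : ℝ) + B) ^ 2 * (j : ℝ) ^ 2 * (f : ℝ) ^ j / (f + 1) ^ j := by ring
      rw [this, div_lt_one h7] at h8
      exact h8
    have h10 : (f : ℝ) ^ j * (A * j + B) ^ 2 ≤ f ^ j * ((A + B) ^ 2 * j ^ 2) :=
      mul_le_mul_of_nonneg_left h5 (by positivity)
    linarith
  exact_mod_cast h4

theorem growth_contradiction {ι α β : Type*} [Finite α] [Finite β] (x : ι → ℂ) (D a b : ℕ)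
    (hN : ∀ k : ℕ, {i | ‖x i‖ ≤ k}.Finite ∧ {i | ‖x i‖ ≤ k}.ncard ≤ (a * k + b) ^ 2)
    (Φ : ι × α → ι × β) (hΦ : Function.Injective Φ)
    (hd : ∀ p, dist (x (Φ p).1) (x p.1) ≤ D) (hcard : Nat.card β < Nat.card α) (i0 : ι) :
    False := by
  set N : ℕ → ℕ := fun k => {i | ‖x i‖ ≤ k}.ncard with hNdef
  have hstep : ∀ k, Nat.card α * N k ≤ Nat.card β * N (k + D) := by
    intro k
    have h1 : ({i | ‖x i‖ ≤ k} ×ˢ (Set.univ : Set α)).ncard ≤
        ({i | ‖x i‖ ≤ ((k + D : ℕ) : ℝ)} ×ˢ (Set.univ : Set β)).ncard := by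
      refine Set.ncard_le_ncard_of_injOn Φ ?_ hΦ.injOn
        ((hN (k + D)).1.prod Set.finite_univ)
      rintro ⟨i, u⟩ ⟨hi, -⟩
      refine ⟨?_, trivial⟩
      simp only [Set.mem_ofPred_eq] at hi ⊢
      have h2 := hd (i, u)
      have h3 : ‖x (Φ (i, u)).1‖ ≤ ‖x i‖ + dist (x (Φ (i, u)).1) (x i) := by
        rw [dist_eq_norm]
        have := norm_add_le (x i) (x (Φ (i, u)).1 - x i)
        rwa [add_sub_cancel] at this
      push_cast
      simp only at h2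
      linarith
    rw [Set.ncard_prod, Set.ncard_prod, Set.ncard_univ, Set.ncard_univ, mul_comm,
      mul_comm _ (Nat.card β)] at h1
    exact h1
  obtain ⟨k0, hk0⟩ := exists_nat_ge ‖x i0‖
  have hN0 : 1 ≤ N k0 := by
    exact (Set.ncard_pos (hN k0).1).2 ⟨i0, hk0⟩
  have hiter : ∀ j : ℕ, (Nat.card α) ^ j * N k0 ≤ (Nat.card β) ^ j * N (k0 + j * D) := by
    intro j
    induction j with
    | zero => simp
    | succ j ih =>
      calc (Nat.card α) ^ (j + 1) * N k0 = Nat.card α * ((Nat.card α) ^ j * N k0) := by ring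
        _ ≤ Nat.card α * ((Nat.card β) ^ j * N (k0 + j * D)) := Nat.mul_le_mul_left _ ih
        _ = (Nat.card β) ^ j * (Nat.card α * N (k0 + j * D)) := by ring
        _ ≤ (Nat.card β) ^ j * (Nat.card β * N (k0 + j * D + D)) :=
          Nat.mul_le_mul_left _ (hstep _)
        _ = (Nat.card β) ^ (j + 1) * N (k0 + (j + 1) * D) := by
          rw [show k0 + (j + 1) * D = k0 + j * D + D by ring]
          ring
  obtain ⟨j, hj⟩ := poly_lt_pow (Nat.card β) (a * D) (a * k0 + b)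
  have h1 : (Nat.card β + 1) ^ j ≤ (Nat.card α) ^ j := Nat.pow_le_pow_left hcard j
  have h2 : (Nat.card α) ^ j ≤ (Nat.card α) ^ j * N k0 := Nat.le_mul_of_pos_right _ hN0
  have h3 := hiter j
  have h4 : N (k0 + j * D) ≤ (a * (k0 + j * D) + b) ^ 2 := (hN _).2
  have h5 : (a * (k0 + j * D) + b) = (a * D * j + (a * k0 + b)) := by ring
  rw [h5] at h4
  have h6 := Nat.mul_le_mul_left ((Nat.card β) ^ j) h4
  omega

end Omino
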