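import Pool.Agent.Lib.MP_8bb6bd_co.Check

/-!
# The pockets for `17 ≤ n ≤ 34`
-/

namespace Omino

/-- Decoding of a list of `k` cells. -/
def decode : ℕ → ℕ → List (ℤ × ℤ)
  | 0, _ => []
  | k + 1, c => ((((c / 32) % 32 : ℕ) : ℤ) - 16, ((c % 32 : ℕ) : ℤ) - 16) :: decode k (c / 1024)

/-- The (encoded) additional cells of the pockets for `n = 17`. -/
def ex17 : List ℕ :=
  [508368, 509393, 510418, 511443, 512468, 513493, 508399, 540143, 508401, 508402, 508403,
    508404, 508405, 508431, 508438, 508463, 508470, 508495, 508502, 508528, 508534, 508561,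
    508566, 508594, 508595, 508596, 508597, 509426, 509427, 509428, 509429, 509455, 509462,
    509487, 509494, 509519, 509526, 509552, 509558, 509585, 509590, 509618, 509619, 509620,
    509621, 510451, 510452, 510453, 510479, 510486, 510511, 510518, 510543, 510550, 510576,
    510582, 510609, 510614, 510642, 510643, 510644, 510645, 511476, 511477, 511503, 511510,
    511535, 511542, 511567, 511574, 511600, 511606, 511633, 511638, 511666, 511667, 511668,
    511669, 512501, 512527, 512534, 512559, 512566, 512591, 512598, 512624, 512630, 512657,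
    512662, 512690, 512691, 512692, 512693, 513526, 513551, 513558, 513583, 513590, 513615,
    513622, 513648, 513654, 513681, 513686, 513714, 513715, 513716, 513717, 547318, 540174,
    540182, 540207, 540214, 540239, 540246, 540272, 540278, 540305, 540310, 540338, 540339,
    540340, 540341, 547351, 547375, 547382, 547407, 547414, 547440, 547446, 547473, 547478,
    547506, 547507, 547508, 547509, 572974, 572982, 573007, 573014, 573040, 573046, 573073,
    573078, 573106, 573107, 573108, 573109, 580151, 580175, 580182, 580208, 580214, 580241,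
    580246, 580274, 580275, 580276, 580277, 605774, 605782, 605807, 605808, 605814, 605841,
    605846, 605874, 605875, 605876, 605877, 612951, 612976, 612982, 613009, 613014, 613042,
    613043, 613044, 613045, 639599, 639606]

/-- The (encoded) additional cells of the pockets for `n = 18`. -/
def ex18 : List ℕ :=
  [496, 497, 498, 499, 500, 501]

/-- The (encoded) additional cells of the pockets for `n = 19`. -/
def ex19 : List ℕ :=
  [508368, 509393, 510418, 511443, 512468, 513493, 508399, 540143, 508401, 508402, 508403,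
    508404, 508405, 508431, 508438, 508463]

/-- The (encoded) additional cells of the pockets for `n = 20`. -/
def ex20 : List ℕ :=
  [496, 497]

/-- The (encoded) additional cells of the pockets for `n = 21`. -/
def ex21 : List ℕ :=
  [508368, 509393, 510418]

/-- The (encoded) additional cells of the pockets for `n = 22`. -/
def ex22 : List ℕ :=
  [520569264, 521618865, 522668466, 523718067, 524767668, 525817269]

/-- The (encoded) additional cells of the pockets for `n = 23`. -/
def ex23 : List ℕ :=
  [508368, 509393, 510418, 511443, 512468, 513493]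

/-- The (encoded) additional cells of the pockets for `n = 24`. -/
def ex24 : List ℕ :=
  [521618865, 522668466]

/-- The (encoded) additional cells of the pockets for `n = 25`. -/
def ex25 : List ℕ :=
  [533063065008, 533063228848]

/-- The (encoded) additional cells of the pockets for `n = 26`. -/
def ex26 : List ℕ :=
  [545924423565744, 545856746341015, 546957023567575]

/-- The (encoded) additional cells of the pockets for `n = 27`. -/
def ex27 : List ℕ :=
  [558957308253199858, 559026609731322455, 561211025911332273, 560084204934121905,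
    560084341099118001, 560083992200300240]

/-- The (encoded) additional cells of the pockets for `n = 28`. -/
def ex28 : List ℕ :=
  [546957199590900, 546957199591123]

/-- The (encoded) additional cells of the pockets for `n = 29`. -/
def ex29 : List ℕ :=
  [558957138768608688, 560084172381082096, 560084172381310680]

/-- The (encoded) additional cells of the pockets for `n = 30`. -/
def ex30 : List ℕ :=
  [572409187830067614128, 572372214596717002160]

/-- The (encoded) additional cells of the pockets for `n = 31`. -/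
def ex31 : List ℕ :=
  [586109137428225736761776, 671450810171900660832688, 586109147747038210212598]

/-- The (encoded) additional cells of the pockets for `n = 32`. -/
def ex32 : List ℕ :=
  [572372099252251774384, 572599649779653755312]

/-- The (encoded) additional cells of the pockets for `n = 33`. -/
def ex33 : List ℕ :=
  [587290667028880394243504, 586151663794568056957360, 586342041374365445440090]

/-- The (encoded) additional cells of the pockets for `n = 34`. -/
def ex34 : List ℕ :=
  [637688834151944114091282863, 601458911388375287677271472, 600219303725637690324337198,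
    600219303725637690324337367, 600414250367350216130652730, 601427223046083849364394711]

set_option maxRecDepth 100000

theorem case17 (k : SetKind) (𝒜 : Set (Set ℂ)) (hA : IsPatch (motions k) 17 𝒜) :
    ¬ TilesPlane (⋃₀ 𝒜) :=
  no_tiling_of_check (chamber 3 4) (wall 3 4) (3, 1) (1, 1) (ex17.map (decode 2)) 180
    (by decide +kernel) (by decide +kernel) (by decide +kernel) (by decide +kernel)
    (by decide +kernel) k 𝒜 hA

theorem case18 (k : SetKind) (𝒜 : Set (Set ℂ)) (hA : IsPatch (motions k) 18 𝒜) :
    ¬ TilesPlane (⋃₀ 𝒜) :=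
  no_tiling_of_check (chamber 4 4) (wall 4 4) (4, 1) (1, 1) (ex18.map (decode 1)) 5
    (by decide +kernel) (by decide +kernel) (by decide +kernel) (by decide +kernel)
    (by decide +kernel) k 𝒜 hA

theorem case19 (k : SetKind) (𝒜 : Set (Set ℂ)) (hA : IsPatch (motions k) 19 𝒜) :
    ¬ TilesPlane (⋃₀ 𝒜) :=
  no_tiling_of_check (chamber 4 4) (wall 4 4) (4, 1) (1, 1) (ex19.map (decode 2)) 15
    (by decide +kernel) (by decide +kernel) (by decide +kernel) (by decide +kernel)
    (by decide +kernel) k 𝒜 hA

theorem case20 (k : SetKind) (𝒜 : Set (Set ℂ)) (hA : IsPatch (motions k) 20 𝒜) :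
    ¬ TilesPlane (⋃₀ 𝒜) :=
  no_tiling_of_check (chamber 4 5) (wall 4 5) (4, 1) (1, 1) (ex20.map (decode 1)) 1
    (by decide +kernel) (by decide +kernel) (by decide +kernel) (by decide +kernel)
    (by decide +kernel) k 𝒜 hA

theorem case21 (k : SetKind) (𝒜 : Set (Set ℂ)) (hA : IsPatch (motions k) 21 𝒜) :
    ¬ TilesPlane (⋃₀ 𝒜) :=
  no_tiling_of_check (chamber 4 5) (wall 4 5) (4, 1) (1, 1) (ex21.map (decode 2)) 2
    (by decide +kernel) (by decide +kernel) (by decide +kernel) (by decide +kernel)
    (by decide +kernel) k 𝒜 hA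

theorem case22 (k : SetKind) (𝒜 : Set (Set ℂ)) (hA : IsPatch (motions k) 22 𝒜) :
    ¬ TilesPlane (⋃₀ 𝒜) :=
  no_tiling_of_check (chamber 4 5) (wall 4 5) (4, 1) (1, 1) (ex22.map (decode 3)) 5
    (by decide +kernel) (by decide +kernel) (by decide +kernel) (by decide +kernel)
    (by decide +kernel) k 𝒜 hA

theorem case23 (k : SetKind) (𝒜 : Set (Set ℂ)) (hA : IsPatch (motions k) 23 𝒜) :
    ¬ TilesPlane (⋃₀ 𝒜) :=
  no_tiling_of_check (chamber 3 7) (wall 3 7) (3, 1) (1, 1) (ex23.map (decode 2)) 5
    (by decide +kernel) (by decide +kernel) (by decide +kernel) (by decide +kernel)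
    (by decide +kernel) k 𝒜 hA

theorem case24 (k : SetKind) (𝒜 : Set (Set ℂ)) (hA : IsPatch (motions k) 24 𝒜) :
    ¬ TilesPlane (⋃₀ 𝒜) :=
  no_tiling_of_check (chamber 4 6) (wall 4 6) (4, 1) (1, 1) (ex24.map (decode 3)) 1
    (by decide +kernel) (by decide +kernel) (by decide +kernel) (by decide +kernel)
    (by decide +kernel) k 𝒜 hA

theorem case25 (k : SetKind) (𝒜 : Set (Set ℂ)) (hA : IsPatch (motions k) 25 𝒜) :
    ¬ TilesPlane (⋃₀ 𝒜) :=
  no_tiling_of_check (chamber 5 5) (wall 5 5) (5, 1) (1, 1) (ex25.map (decode 4)) 1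
    (by decide +kernel) (by decide +kernel) (by decide +kernel) (by decide +kernel)
    (by decide +kernel) k 𝒜 hA

theorem case26 (k : SetKind) (𝒜 : Set (Set ℂ)) (hA : IsPatch (motions k) 26 𝒜) :
    ¬ TilesPlane (⋃₀ 𝒜) :=
  no_tiling_of_check (chamber 5 5) (wall 5 5) (5, 1) (1, 1) (ex26.map (decode 5)) 2
    (by decide +kernel) (by decide +kernel) (by decide +kernel) (by decide +kernel)
    (by decide +kernel) k 𝒜 hA

theorem case27 (k : SetKind) (𝒜 : Set (Set ℂ)) (hA : IsPatch (motions k) 27 𝒜) :
    ¬ TilesPlane (⋃₀ 𝒜) :=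
  no_tiling_of_check (chamber 5 5) (wall 5 5) (5, 1) (1, 1) (ex27.map (decode 6)) 5
    (by decide +kernel) (by decide +kernel) (by decide +kernel) (by decide +kernel)
    (by decide +kernel) k 𝒜 hA

theorem case28 (k : SetKind) (𝒜 : Set (Set ℂ)) (hA : IsPatch (motions k) 28 𝒜) :
    ¬ TilesPlane (⋃₀ 𝒜) :=
  no_tiling_of_check (chamber 4 7) (wall 4 7) (4, 1) (1, 1) (ex28.map (decode 5)) 1
    (by decide +kernel) (by decide +kernel) (by decide +kernel) (by decide +kernel)
    (by decide +kernel) k 𝒜 hA

theorem case29 (k : SetKind) (𝒜 : Set (Set ℂ)) (hA : IsPatch (motions k) 29 𝒜) :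
    ¬ TilesPlane (⋃₀ 𝒜) :=
  no_tiling_of_check (chamber 4 7) (wall 4 7) (4, 1) (1, 1) (ex29.map (decode 6)) 2
    (by decide +kernel) (by decide +kernel) (by decide +kernel) (by decide +kernel)
    (by decide +kernel) k 𝒜 hA

theorem case30 (k : SetKind) (𝒜 : Set (Set ℂ)) (hA : IsPatch (motions k) 30 𝒜) :
    ¬ TilesPlane (⋃₀ 𝒜) :=
  no_tiling_of_check (chamber 5 6) (wall 5 6) (5, 1) (1, 1) (ex30.map (decode 7)) 1
    (by decide +kernel) (by decide +kernel) (by decide +kernel) (by decide +kernel)
    (by decide +kernel) k 𝒜 hA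

theorem case31 (k : SetKind) (𝒜 : Set (Set ℂ)) (hA : IsPatch (motions k) 31 𝒜) :
    ¬ TilesPlane (⋃₀ 𝒜) :=
  no_tiling_of_check (chamber 5 6) (wall 5 6) (5, 1) (1, 1) (ex31.map (decode 8)) 2
    (by decide +kernel) (by decide +kernel) (by decide +kernel) (by decide +kernel)
    (by decide +kernel) k 𝒜 hA

theorem case32 (k : SetKind) (𝒜 : Set (Set ℂ)) (hA : IsPatch (motions k) 32 𝒜) :
    ¬ TilesPlane (⋃₀ 𝒜) :=
  no_tiling_of_check (chamber 4 8) (wall 4 8) (4, 1) (1, 1) (ex32.map (decode 7)) 1
    (by decide +kernel) (by decide +kernel) (by decide +kernel) (by decide +kernel)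
    (by decide +kernel) k 𝒜 hA

theorem case33 (k : SetKind) (𝒜 : Set (Set ℂ)) (hA : IsPatch (motions k) 33 𝒜) :
    ¬ TilesPlane (⋃₀ 𝒜) :=
  no_tiling_of_check (chamber 4 8) (wall 4 8) (4, 1) (1, 1) (ex33.map (decode 8)) 2
    (by decide +kernel) (by decide +kernel) (by decide +kernel) (by decide +kernel)
    (by decide +kernel) k 𝒜 hA

theorem case34 (k : SetKind) (𝒜 : Set (Set ℂ)) (hA : IsPatch (motions k) 34 𝒜) :
    ¬ TilesPlane (⋃₀ 𝒜) :=
  no_tiling_of_check (chamber 4 8) (wall 4 8) (4, 1) (1, 1) (ex34.map (decode 9)) 5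
    (by decide +kernel) (by decide +kernel) (by decide +kernel) (by decide +kernel)
    (by decide +kernel) k 𝒜 hA

end Omino
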