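import Mathlib

/-!
# Polyominoes, patches made of a set of `n`-ominoes, and tilings by copies of a patch

The plane is `ℂ`, the cell `(x, y) : ℤ × ℤ` is the closed unit square
`[x, x + 1] × [y, y + 1]`.
-/

namespace Omino

/-- Two cells share an edge. -/
def Adj (a b : ℤ × ℤ) : Prop := |a.1 - b.1| + |a.2 - b.2| = 1

/-- A set of cells is edge-connected: any two of its cells are joined by a chain of cells of the
set in which consecutive cells share an edge. -/
def EdgeConn (A : Set (ℤ × ℤ)) : Prop :=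
  ∀ a ∈ A, ∀ b ∈ A, Relation.ReflTransGen (fun x y => Adj x y ∧ x ∈ A ∧ y ∈ A) a b

/-- A finite set of `n` cells whose union is a closed topological disk: the set and its complement
are both edge-connected. -/
def IsOmino (n : ℕ) (P : Finset (ℤ × ℤ)) : Prop :=
  P.card = n ∧ EdgeConn (P : Set (ℤ × ℤ)) ∧ EdgeConn ((P : Set (ℤ × ℤ))ᶜ)

/-- The closed unit square of a cell. -/
def square (c : ℤ × ℤ) : Set ℂ :=
  {z | (c.1 : ℝ) ≤ z.re ∧ z.re ≤ c.1 + 1 ∧ (c.2 : ℝ) ≤ z.im ∧ z.im ≤ c.2 + 1}

/-- The union of the closed squares of the cells of `P`. -/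
def region (P : Finset (ℤ × ℤ)) : Set ℂ := ⋃ c ∈ P, square c

/-- `𝒜` is a patch made of `n`-ominoes with the set `M` of allowed motions: every member is the
image of an `n`-omino under an allowed motion, every `n`-omino is represented exactly once up to
allowed motions, and distinct members have disjoint interiors. With `M` the set of all isometries
(all orientation preserving isometries, all translations) these are the patches obtained by placing
the tiles of the basic (reflective, full) set of `n`-ominoes. -/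
def IsPatch (M : Set (ℂ ≃ᵢ ℂ)) (n : ℕ) (𝒜 : Set (Set ℂ)) : Prop :=
  (∀ T ∈ 𝒜, ∃ P, IsOmino n P ∧ ∃ φ ∈ M, T = φ '' region P) ∧
  (∀ P, IsOmino n P → ∃! T, T ∈ 𝒜 ∧ ∃ φ ∈ M, T = φ '' region P) ∧
  (∀ T ∈ 𝒜, ∀ T' ∈ 𝒜, T ≠ T' → Disjoint (interior T) (interior T'))

/-- The plane can be tiled by isometric copies of `R`. -/
def TilesPlane (R : Set ℂ) : Prop :=
  ∃ (ι : Type) (ψ : ι → (ℂ ≃ᵢ ℂ)), (⋃ i, ψ i '' R) = Set.univ ∧
    ∀ i j, i ≠ j → Disjoint (interior (ψ i '' R)) (interior (ψ j '' R))

end Omino
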