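import Pool.Agent.Lib.MP_8bb6bd_co.Lattice

/-!
# Unit squares in the plane: a square in a corner of lattice squares is a lattice square
-/

namespace Omino

/-- The form of an isometry of the plane in real coordinates. -/
theorem isom_form (χ : ℂ ≃ᵢ ℂ) : ∃ a1 a2 b1 b2 σ : ℝ, a1 ^ 2 + a2 ^ 2 = 1 ∧ (σ = 1 ∨ σ = -1) ∧
    ∀ z, (χ z).re = z.re * a1 - σ * (z.im * a2) + b1 ∧
      (χ z).im = z.re * a2 + σ * (z.im * a1) + b2 := by
  obtain ⟨a, ha⟩ := linear_isometry_complex χ.toRealLinearIsometryEquiv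
  have hn : (a : ℂ).re ^ 2 + (a : ℂ).im ^ 2 = 1 := by
    have h1 := Circle.normSq_coe a
    rw [Complex.normSq_apply] at h1
    nlinarith [h1]
  rcases ha with ha | ha
  · refine ⟨(a : ℂ).re, (a : ℂ).im, (χ 0).re, (χ 0).im, 1, hn, Or.inl rfl, fun z => ?_⟩
    have h1 : χ z - χ 0 = a * z := by
      rw [← IsometryEquiv.toRealLinearIsometryEquiv_apply, ha, rotation_apply]
    have hz : χ z = a * z + χ 0 := by rw [← h1]; ring
    rw [hz]
    constructor <;> simp only [Complex.add_re, Complex.add_im, Complex.mul_re, Complex.mul_im] <;>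
      ring
  · refine ⟨(a : ℂ).re, (a : ℂ).im, (χ 0).re, (χ 0).im, -1, hn, Or.inr rfl, fun z => ?_⟩
    have h1 : χ z - χ 0 = a * (starRingEnd ℂ) z := by
      rw [← IsometryEquiv.toRealLinearIsometryEquiv_apply, ha, LinearIsometryEquiv.trans_apply,
        rotation_apply, Complex.conjLIE_apply]
    have hz : χ z = a * (starRingEnd ℂ) z + χ 0 := by rw [← h1]; ring
    rw [hz]
    constructor <;> simp only [Complex.add_re, Complex.add_im, Complex.mul_re, Complex.mul_im,
      Complex.conj_re, Complex.conj_im] <;> ring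

/-- The open unit square of a cell. -/
def osq (c : ℤ × ℤ) : Set ℂ :=
  {z | (c.1 : ℝ) < z.re ∧ z.re < c.1 + 1 ∧ (c.2 : ℝ) < z.im ∧ z.im < c.2 + 1}

theorem isOpen_osq (c : ℤ × ℤ) : IsOpen (osq c) := by
  have h1 := Complex.continuous_re
  have h2 := Complex.continuous_im
  exact (isOpen_lt continuous_const h1).inter ((isOpen_lt h1 continuous_const).inter
    ((isOpen_lt continuous_const h2).inter (isOpen_lt h2 continuous_const)))

theorem osq_subset (c : ℤ × ℤ) : osq c ⊆ square c :=
  fun _ ⟨h1, h2, h3, h4⟩ => ⟨h1.le, h2.le, h3.le, h4.le⟩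

theorem osq_subset_interior (c : ℤ × ℤ) : osq c ⊆ interior (square c) :=
  interior_maximal (osq_subset c) (isOpen_osq c)

theorem isClosed_square (c : ℤ × ℤ) : IsClosed (square c) := by
  have h1 := Complex.continuous_re
  have h2 := Complex.continuous_im
  exact (isClosed_le continuous_const h1).inter ((isClosed_le h1 continuous_const).inter
    ((isClosed_le continuous_const h2).inter (isClosed_le h2 continuous_const)))

theorem convex_square (c : ℤ × ℤ) : Convex ℝ (square c) := by
  rintro z ⟨h1, h2, h3, h4⟩ w ⟨k1, k2, k3, k4⟩ a b ha hb hab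
  obtain rfl : b = 1 - a := by linarith
  refine ⟨?_, ?_, ?_, ?_⟩ <;> simp only [Complex.add_re, Complex.add_im, Complex.real_smul,
    Complex.mul_re, Complex.mul_im, Complex.ofReal_re, Complex.ofReal_im]
  · nlinarith [mul_nonneg ha (sub_nonneg.2 h1), mul_nonneg hb (sub_nonneg.2 k1)]
  · nlinarith [mul_nonneg ha (sub_nonneg.2 h2), mul_nonneg hb (sub_nonneg.2 k2)]
  · nlinarith [mul_nonneg ha (sub_nonneg.2 h3), mul_nonneg hb (sub_nonneg.2 k3)]
  · nlinarith [mul_nonneg ha (sub_nonneg.2 h4), mul_nonneg hb (sub_nonneg.2 k4)]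

theorem eq_of_mem_square_osq {c w : ℤ × ℤ} {z : ℂ} (h : z ∈ square c) (h' : z ∈ osq w) :
    c = w := by
  obtain ⟨h1, h2, h3, h4⟩ := h
  obtain ⟨k1, k2, k3, k4⟩ := h'
  have e1 : (c.1 : ℝ) < w.1 + 1 := by linarith
  have e2 : (w.1 : ℝ) < c.1 + 1 := by linarith
  have e3 : (c.2 : ℝ) < w.2 + 1 := by linarith
  have e4 : (w.2 : ℝ) < c.2 + 1 := by linarith
  have f1 : c.1 < w.1 + 1 := by exact_mod_cast e1
  have f2 : w.1 < c.1 + 1 := by exact_mod_cast e2
  have f3 : c.2 < w.2 + 1 := by exact_mod_cast e3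
  have f4 : w.2 < c.2 + 1 := by exact_mod_cast e4
  ext <;> omega

theorem convex_image_square (χ : ℂ ≃ᵢ ℂ) (c : ℤ × ℤ) : Convex ℝ (χ '' square c) := by
  have h := (convex_square c).affine_image (χ.toRealAffineIsometryEquiv.toAffineEquiv :
    ℂ →ᵃ[ℝ] ℂ)
  exact h

theorem isClosed_image_square (χ : ℂ ≃ᵢ ℂ) (c : ℤ × ℤ) : IsClosed (χ '' square c) :=
  χ.toHomeomorph.isClosedMap _ (isClosed_square c)

theorem interior_image (χ : ℂ ≃ᵢ ℂ) (A : Set ℂ) : interior (χ '' A) = χ '' interior A :=
  (χ.toHomeomorph.image_interior A).symm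

/-- The point at distance `ε` (in each coordinate) of the corner of the cell `v`. -/
def dpt (v : ℤ × ℤ) (ε : ℝ) : ℂ := ⟨v.1 + ε, v.2 + ε⟩

theorem continuous_dpt (v : ℤ × ℤ) : Continuous (dpt v) := by
  have : dpt v = fun ε => (Complex.equivRealProdCLM.symm (v.1 + ε, v.2 + ε)) := by
    funext ε
    apply Complex.ext <;> simp [dpt]
  rw [this]
  fun_prop

/-- If the diagonal segment of the cell `v` is covered by finitely many closed convex sets, one of
them contains a whole initial segment of it. -/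
theorem exists_diag {α : Type*} {s : Set α} (hs : s.Finite) (K : α → Set ℂ)
    (hcl : ∀ i ∈ s, IsClosed (K i)) (hcv : ∀ i ∈ s, Convex ℝ (K i)) (v : ℤ × ℤ)
    (hcov : ∀ ε : ℝ, 0 < ε → ε < 1 → ∃ i ∈ s, dpt v ε ∈ K i) :
    ∃ i ∈ s, ∃ ε0 : ℝ, 0 < ε0 ∧ ∀ ε, 0 ≤ ε → ε ≤ ε0 → dpt v ε ∈ K i := by
  have hpos : ∀ k : ℕ, (0 : ℝ) < 1 / ((k : ℝ) + 2) := fun k => by positivity
  have hlt : ∀ k : ℕ, 1 / ((k : ℝ) + 2) < 1 := fun k => by
    rw [div_lt_one (by positivity)]
    have : (0 : ℝ) ≤ k := Nat.cast_nonneg k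
    linarith
  choose f hf1 hf2 using fun k : ℕ => hcov (1 / ((k : ℝ) + 2)) (hpos k) (hlt k)
  have : Finite s := hs
  obtain ⟨y, hy⟩ := Finite.exists_infinite_fiber (fun k : ℕ => (⟨f k, hf1 k⟩ : s))
  have hinf := Set.infinite_coe_iff.1 hy
  have hmem : ∀ k ∈ (fun k : ℕ => (⟨f k, hf1 k⟩ : s)) ⁻¹' {y},
      dpt v (1 / ((k : ℝ) + 2)) ∈ K y := by
    intro k hk
    have : (⟨f k, hf1 k⟩ : s) = y := hk
    have h2 := hf2 k
    rw [← this]
    exact h2
  obtain ⟨k0, hk0⟩ := hinf.nonempty
  refine ⟨y, y.2, 1 / ((k0 : ℝ) + 2), hpos k0, ?_⟩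
  set T : Set ℝ := dpt v ⁻¹' (K y) with hT
  have hTc : IsClosed T := (hcl y y.2).preimage (continuous_dpt v)
  have hTv : Convex ℝ T := by
    intro a ha b hb p q hp hq hpq
    have h := hcv y y.2 ha hb hp hq hpq
    have e : p • dpt v a + q • dpt v b = dpt v (p • a + q • b) := by
      apply Complex.ext
      · simp only [dpt, Complex.add_re, Complex.real_smul, Complex.mul_re, Complex.ofReal_re,
          Complex.ofReal_im, smul_eq_mul]
        have : (v.1 : ℝ) = (p + q) * v.1 := by rw [hpq, one_mul]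
        nlinarith [this]
      · simp only [dpt, Complex.add_im, Complex.real_smul, Complex.mul_im, Complex.ofReal_re,
          Complex.ofReal_im, smul_eq_mul]
        have : (v.2 : ℝ) = (p + q) * v.2 := by rw [hpq, one_mul]
        nlinarith [this]
    rw [e] at h
    exact h
  have h0 : (0 : ℝ) ∈ T := by
    rw [← hTc.closure_eq, Metric.mem_closure_iff]
    intro δ hδ
    obtain ⟨N, hN⟩ := exists_nat_gt (1 / δ)
    obtain ⟨k, hk, hNk⟩ := hinf.exists_gt N
    refine ⟨1 / ((k : ℝ) + 2), hmem k hk, ?_⟩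
    rw [Real.dist_eq, zero_sub, abs_neg, abs_of_pos (hpos k), div_lt_iff₀ (by positivity)]
    have h1 : (N : ℝ) < k := by exact_mod_cast hNk
    have h2 : 1 / δ < (k : ℝ) + 2 := by linarith
    rw [div_lt_iff₀ hδ] at h2
    linarith
  have hk : 1 / ((k0 : ℝ) + 2) ∈ T := hmem k0 hk0
  intro ε h1 h2
  exact hTv.ordConnected.out h0 hk ⟨h1, h2⟩

/-- A unit square containing an initial piece of the diagonal of the lattice square `v` and
overlapping neither the left nor the lower neighbour of `v` lies in the quadrant of `v`. -/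
theorem quadrant {χ : ℂ ≃ᵢ ℂ} {c v : ℤ × ℤ} {ε0 : ℝ} (hε0 : 0 < ε0)
    (hd : ∀ ε, 0 ≤ ε → ε ≤ ε0 → dpt v ε ∈ χ '' square c)
    (hL : Disjoint (interior (χ '' square c)) (osq (v.1 - 1, v.2)))
    (hD : Disjoint (interior (χ '' square c)) (osq (v.1, v.2 - 1))) :
    ∀ z ∈ χ '' square c, (v.1 : ℝ) ≤ z.re ∧ (v.2 : ℝ) ≤ z.im := by
  set K := χ '' square c with hK
  have hKv : Convex ℝ K := convex_image_square χ c
  have hKc : IsClosed K := isClosed_image_square χ c
  have hne : (interior K).Nonempty := by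
    rw [hK, interior_image]
    have : (⟨c.1 + 1 / 2, c.2 + 1 / 2⟩ : ℂ) ∈ osq c := by
      refine ⟨?_, ?_, ?_, ?_⟩ <;> simp only <;> linarith
    exact ⟨_, Set.mem_image_of_mem _ (osq_subset_interior c this)⟩
  -- the segments towards interior points
  have hseg : ∀ z ∈ interior K, ∀ τ : ℝ, 0 < τ → τ < 1 → ∀ ε : ℝ, 0 ≤ ε → ε ≤ ε0 →
      (⟨(v.1 + ε) + τ * (z.re - (v.1 + ε)), (v.2 + ε) + τ * (z.im - (v.2 + ε))⟩ : ℂ) ∈
        interior K := by
    intro z hz τ h1 h2 ε h3 h4
    have h := hKv.add_smul_sub_mem_interior' (subset_closure (hd ε h3 h4)) hz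
      (t := τ) ⟨h1, h2.le⟩
    have e : dpt v ε + τ • (z - dpt v ε) =
        (⟨(v.1 + ε) + τ * (z.re - (v.1 + ε)), (v.2 + ε) + τ * (z.im - (v.2 + ε))⟩ : ℂ) := by
      apply Complex.ext <;> simp [dpt]
    rw [e] at h
    exact h
  have hA1 : ∀ z ∈ interior K, z.re - v.1 < z.im - v.2 → (v.1 : ℝ) ≤ z.re := by
    intro z hz hlt
    by_contra hcon
    push Not at hcon
    set x := z.re - v.1 with hx
    set y := z.im - v.2 with hy
    have hx0 : x < 0 := by linarith
    set m := (x + min y 0) / 2 with hm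
    have hm1 : x < m := by
      have : x < min y 0 := lt_min hlt hx0
      linarith
    have hm2 : m < y := by
      have : min y 0 ≤ y := min_le_left _ _
      linarith
    have hm3 : m < 0 := by
      have : min y 0 ≤ 0 := min_le_right _ _
      linarith
    set A := |x| + |y| + 1 with hA
    have hApos : 0 < A := by positivity
    have hAx : -x ≤ A := by
      have := neg_abs_le x
      have := abs_nonneg y
      linarith
    have hAy : y - x ≤ A := by
      have := neg_abs_le x
      have := le_abs_self y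
      linarith
    set τ := min (1 / 2) (min (1 / (2 * A)) (ε0 / (2 * A))) with hτ
    have hτ0 : 0 < τ := lt_min (by norm_num) (lt_min (by positivity) (by positivity))
    have hτ1 : τ ≤ 1 / 2 := min_le_left _ _
    have hτ2 : τ * (2 * A) ≤ 1 := by
      have : τ ≤ 1 / (2 * A) := (min_le_right _ _).trans (min_le_left _ _)
      rwa [le_div_iff₀ (by positivity)] at this
    have hτ3 : τ * (2 * A) ≤ ε0 := by
      have : τ ≤ ε0 / (2 * A) := (min_le_right _ _).trans (min_le_right _ _)
      rwa [le_div_iff₀ (by positivity)] at this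
    set ε := τ * (-m) / (1 - τ) with hε
    have h1τ : 0 < 1 - τ := by linarith
    have hε1 : 0 ≤ ε := div_nonneg (mul_nonneg hτ0.le (by linarith)) h1τ.le
    have hε2 : ε ≤ ε0 := by
      rw [hε, div_le_iff₀ h1τ]
      have h1 : τ * (-m) ≤ τ * A := mul_le_mul_of_nonneg_left (by linarith) hτ0.le
      nlinarith
    have hε3 : (1 - τ) * ε = -(τ * m) := by
      rw [hε]; field_simp
    have hp := hseg z hz τ hτ0 (by linarith) ε hε1 hε2
    have hz1 : z.re = v.1 + x := by rw [hx]; ring
    have hz2 : z.im = v.2 + y := by rw [hy]; ring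
    refine Set.disjoint_left.1 hL hp ⟨?_, ?_, ?_, ?_⟩
    · simp only [Int.cast_sub, Int.cast_one]
      rw [hz1]
      have : τ * (m - x) ≤ τ * A := mul_le_mul_of_nonneg_left (by linarith) hτ0.le
      nlinarith
    · simp only [Int.cast_sub, Int.cast_one]
      rw [hz1]
      have : 0 < τ * (m - x) := mul_pos hτ0 (by linarith)
      nlinarith
    · simp only
      rw [hz2]
      have : 0 < τ * (y - m) := mul_pos hτ0 (by linarith)
      nlinarith
    · simp only
      rw [hz2]
      have : τ * (y - m) ≤ τ * A := mul_le_mul_of_nonneg_left (by linarith) hτ0.le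
      nlinarith
  have hA2 : ∀ z ∈ interior K, z.im - v.2 < z.re - v.1 → (v.2 : ℝ) ≤ z.im := by
    intro z hz hlt
    by_contra hcon
    push Not at hcon
    set x := z.im - v.2 with hx
    set y := z.re - v.1 with hy
    have hx0 : x < 0 := by linarith
    set m := (x + min y 0) / 2 with hm
    have hm1 : x < m := by
      have : x < min y 0 := lt_min hlt hx0
      linarith
    have hm2 : m < y := by
      have : min y 0 ≤ y := min_le_left _ _
      linarith
    have hm3 : m < 0 := by
      have : min y 0 ≤ 0 := min_le_right _ _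
      linarith
    set A := |x| + |y| + 1 with hA
    have hApos : 0 < A := by positivity
    have hAx : -x ≤ A := by
      have := neg_abs_le x
      have := abs_nonneg y
      linarith
    have hAy : y - x ≤ A := by
      have := neg_abs_le x
      have := le_abs_self y
      linarith
    set τ := min (1 / 2) (min (1 / (2 * A)) (ε0 / (2 * A))) with hτ
    have hτ0 : 0 < τ := lt_min (by norm_num) (lt_min (by positivity) (by positivity))
    have hτ1 : τ ≤ 1 / 2 := min_le_left _ _
    have hτ2 : τ * (2 * A) ≤ 1 := by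
      have : τ ≤ 1 / (2 * A) := (min_le_right _ _).trans (min_le_left _ _)
      rwa [le_div_iff₀ (by positivity)] at this
    have hτ3 : τ * (2 * A) ≤ ε0 := by
      have : τ ≤ ε0 / (2 * A) := (min_le_right _ _).trans (min_le_right _ _)
      rwa [le_div_iff₀ (by positivity)] at this
    set ε := τ * (-m) / (1 - τ) with hε
    have h1τ : 0 < 1 - τ := by linarith
    have hε1 : 0 ≤ ε := div_nonneg (mul_nonneg hτ0.le (by linarith)) h1τ.le
    have hε2 : ε ≤ ε0 := by
      rw [hε, div_le_iff₀ h1τ]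
      have h1 : τ * (-m) ≤ τ * A := mul_le_mul_of_nonneg_left (by linarith) hτ0.le
      nlinarith
    have hε3 : (1 - τ) * ε = -(τ * m) := by
      rw [hε]; field_simp
    have hp := hseg z hz τ hτ0 (by linarith) ε hε1 hε2
    have hz1 : z.im = v.2 + x := by rw [hx]; ring
    have hz2 : z.re = v.1 + y := by rw [hy]; ring
    refine Set.disjoint_left.1 hD hp ⟨?_, ?_, ?_, ?_⟩
    · simp only
      rw [hz2]
      have : 0 < τ * (y - m) := mul_pos hτ0 (by linarith)
      nlinarith
    · simp only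
      rw [hz2]
      have : τ * (y - m) ≤ τ * A := mul_le_mul_of_nonneg_left (by linarith) hτ0.le
      nlinarith
    · simp only [Int.cast_sub, Int.cast_one]
      rw [hz1]
      have : τ * (m - x) ≤ τ * A := mul_le_mul_of_nonneg_left (by linarith) hτ0.le
      nlinarith
    · simp only [Int.cast_sub, Int.cast_one]
      rw [hz1]
      have : 0 < τ * (m - x) := mul_pos hτ0 (by linarith)
      nlinarith
  have hA : ∀ z ∈ interior K, (v.1 : ℝ) ≤ z.re ∧ (v.2 : ℝ) ≤ z.im := by
    intro z hz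
    have hdiag2 : z.re - v.1 = z.im - v.2 → (v.1 : ℝ) ≤ z.re ∧ (v.2 : ℝ) ≤ z.im := by
      intro heq
      by_contra hcon
      have hneg : z.re < v.1 := by
        by_contra h
        push Not at h
        exact hcon ⟨h, by linarith⟩
      obtain ⟨r, hr, hball⟩ := Metric.isOpen_iff.1 isOpen_interior z hz
      have hz' : (⟨z.re - r / 2, z.im⟩ : ℂ) ∈ interior K := by
        apply hball
        rw [Metric.mem_ball, dist_eq_norm]
        have : (⟨z.re - r / 2, z.im⟩ : ℂ) - z = ((-(r / 2) : ℝ) : ℂ) := by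
          apply Complex.ext <;> simp
        rw [this, Complex.norm_real, Real.norm_eq_abs, abs_neg, abs_of_pos (by linarith)]
        linarith
      have := hA1 _ hz' (by simp only; linarith)
      simp only at this
      linarith
    rcases lt_trichotomy (z.re - v.1) (z.im - v.2) with hlt | heq | hgt
    · have h1 := hA1 z hz hlt
      exact ⟨h1, by linarith⟩
    · exact hdiag2 heq
    · have h1 := hA2 z hz hgt
      exact ⟨by linarith, h1⟩
  have hcl : IsClosed {z : ℂ | (v.1 : ℝ) ≤ z.re ∧ (v.2 : ℝ) ≤ z.im} :=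
    (isClosed_le continuous_const Complex.continuous_re).inter
      (isClosed_le continuous_const Complex.continuous_im)
  have h1 : closure (interior K) ⊆ {z : ℂ | (v.1 : ℝ) ≤ z.re ∧ (v.2 : ℝ) ≤ z.im} :=
    closure_minimal (fun z hz => hA z hz) hcl
  rw [hKv.closure_interior_eq_closure_of_nonempty_interior hne, hKc.closure_eq] at h1
  exact fun z hz => h1 hz

theorem eq_one_of_sq {a b : ℝ} (h : a ^ 2 + b ^ 2 = 1) (hb : b = 0) (ha : 0 ≤ a) : a = 1 := by
  subst hb
  nlinarith [sq_nonneg (a - 1), sq_nonneg (a + 1)]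

theorem eq_neg_one_of_sq {a b : ℝ} (h : a ^ 2 + b ^ 2 = 1) (hb : b = 0) (ha : a ≤ 0) :
    a = -1 := by
  subst hb
  nlinarith [sq_nonneg (a - 1), sq_nonneg (a + 1)]

/-- The main geometric lemma: a unit square containing an initial piece of the diagonal of the
lattice square `v` and overlapping neither the left nor the lower neighbour of `v` is the lattice
square `v`, and the isometry is a lattice motion. -/
theorem corner_square {χ : ℂ ≃ᵢ ℂ} {c v : ℤ × ℤ}
    (hdiag : ∃ ε0 : ℝ, 0 < ε0 ∧ ∀ ε, 0 ≤ ε → ε ≤ ε0 → dpt v ε ∈ χ '' square c)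
    (hL : Disjoint (interior (χ '' square c)) (osq (v.1 - 1, v.2)))
    (hD : Disjoint (interior (χ '' square c)) (osq (v.1, v.2 - 1))) :
    ∃ h t, χ = lm h t ∧ mv h t c = v := by
  obtain ⟨ε0, hε0, hd⟩ := hdiag
  have hB := quadrant hε0 hd hL hD
  obtain ⟨q, hq, hqv⟩ := hd 0 le_rfl hε0.le
  clear hL hD hd
  obtain ⟨a1, a2, b1, b2, σ, ha, hσ, hform⟩ := isom_form χ
  obtain ⟨q1, q2, q3, q4⟩ := hq
  have hq1 : (χ q).re = v.1 := by rw [hqv]; simp [dpt]
  have hq2 : (χ q).im = v.2 := by rw [hqv]; simp [dpt]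
  have hdiff : ∀ z, (χ z).re - v.1 = (z.re - q.re) * a1 - σ * ((z.im - q.im) * a2) ∧
      (χ z).im - v.2 = (z.re - q.re) * a2 + σ * ((z.im - q.im) * a1) := by
    intro z
    have f1 := hform z
    have f2 := hform q
    rw [← hq1, ← hq2]
    constructor
    · rw [f1.1, f2.1]; ring
    · rw [f1.2, f2.2]; ring
  have hall : ∀ x y : ℝ, (c.1 : ℝ) ≤ x → x ≤ c.1 + 1 → (c.2 : ℝ) ≤ y → y ≤ c.2 + 1 →
      0 ≤ (x - q.re) * a1 - σ * ((y - q.im) * a2) ∧
      0 ≤ (x - q.re) * a2 + σ * ((y - q.im) * a1) := by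
    intro x y h1 h2 h3 h4
    have hz := hB (χ ⟨x, y⟩) ⟨⟨x, y⟩, ⟨h1, h2, h3, h4⟩, rfl⟩
    have hf := hdiff ⟨x, y⟩
    simp only at hf
    rw [← hf.1, ← hf.2]
    constructor
    · linarith [hz.1]
    · linarith [hz.2]
  -- the four one-sided conditions
  have e1 := hall c.1 q.im le_rfl (by linarith) q3 q4
  have e2 := hall (c.1 + 1) q.im (by linarith) le_rfl q3 q4
  have e3 := hall q.re c.2 q1 q2 le_rfl (by linarith)
  have e4 := hall q.re (c.2 + 1) q1 q2 (by linarith) le_rfl
  simp only [sub_self, zero_mul, mul_zero, sub_zero, add_zero, zero_sub, zero_add] at e1 e2 e3 e4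
  clear hall hB
  have hσ0 : σ ≠ 0 := by rcases hσ with rfl | rfl <;> norm_num
  have hs0 : q.re = c.1 ∨ q.re = c.1 + 1 := by
    by_contra hcon
    push Not at hcon
    have h1 : (c.1 : ℝ) - q.re < 0 := sub_neg.2 (lt_of_le_of_ne q1 (Ne.symm hcon.1))
    have h2 : 0 < c.1 + 1 - q.re := sub_pos.2 (lt_of_le_of_ne q2 hcon.2)
    have f1 : a1 = 0 := by
      apply le_antisymm
      · by_contra h; push Not at h; linarith [e1.1, mul_neg_of_neg_of_pos h1 h]
      · by_contra h; push Not at h; linarith [e2.1, mul_neg_of_pos_of_neg h2 h]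
    have f2 : a2 = 0 := by
      apply le_antisymm
      · by_contra h; push Not at h; linarith [e1.2, mul_neg_of_neg_of_pos h1 h]
      · by_contra h; push Not at h; linarith [e2.2, mul_neg_of_pos_of_neg h2 h]
    rw [f1, f2] at ha
    norm_num at ha
  have ht0 : q.im = c.2 ∨ q.im = c.2 + 1 := by
    by_contra hcon
    push Not at hcon
    have h1 : (c.2 : ℝ) - q.im < 0 := sub_neg.2 (lt_of_le_of_ne q3 (Ne.symm hcon.1))
    have h2 : 0 < c.2 + 1 - q.im := sub_pos.2 (lt_of_le_of_ne q4 hcon.2)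
    have r1 : σ * ((c.2 - q.im) * a2) = (c.2 - q.im) * (σ * a2) := by ring
    have r2 : σ * ((c.2 - q.im) * a1) = (c.2 - q.im) * (σ * a1) := by ring
    have r3 : σ * ((c.2 + 1 - q.im) * a2) = (c.2 + 1 - q.im) * (σ * a2) := by ring
    have r4 : σ * ((c.2 + 1 - q.im) * a1) = (c.2 + 1 - q.im) * (σ * a1) := by ring
    rw [r1, r2] at e3
    rw [r3, r4] at e4
    have g1 : σ * a2 = 0 := by
      apply le_antisymm
      · by_contra h; push Not at h; linarith [e4.1, mul_pos h2 h]
      · by_contra h; push Not at h; linarith [e3.1, mul_pos_of_neg_of_neg h1 h]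
    have g2 : σ * a1 = 0 := by
      apply le_antisymm
      · by_contra h; push Not at h; linarith [e3.2, mul_neg_of_neg_of_pos h1 h]
      · by_contra h; push Not at h; linarith [e4.2, mul_neg_of_pos_of_neg h2 h]
    have f1 : a1 = 0 := (mul_eq_zero.1 g2).resolve_left hσ0
    have f2 : a2 = 0 := (mul_eq_zero.1 g1).resolve_left hσ0
    rw [f1, f2] at ha
    norm_num at ha
  -- conclusion from the knowledge of the linear part
  have hfin : ∀ h : D4, (∀ z : ℂ, z.re * a1 - σ * (z.im * a2) = (rl h z).re ∧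
        z.re * a2 + σ * (z.im * a1) = (rl h z).im) →
      rl h (q - vec c - c0) = -c0 → ∃ h t, χ = lm h t ∧ mv h t c = v := by
    intro h h1 h2
    refine ⟨h, v - act h c, ?_, ?_⟩
    · apply IsometryEquiv.ext
      intro z
      have e1 : χ z = vec v + rl h (z - q) := by
        have h3 := h1 (z - q)
        rw [Complex.sub_re, Complex.sub_im] at h3
        apply Complex.ext
        · rw [Complex.add_re, vec_re, ← h3.1]; linarith [(hdiff z).1]
        · rw [Complex.add_im, vec_im, ← h3.2]; linarith [(hdiff z).2]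
      have e2 : vec (v - act h c) = vec v - rl h (vec c) := by
        rw [rl_vec, sub_eq_add_neg, vec_add, vec_neg, sub_eq_add_neg]
      rw [e1, lm_apply, e2, rl_sub h z q, rl_sub h z c0]
      rw [rl_sub, rl_sub] at h2
      linear_combination -h2
    · rw [mv_apply]
      abel
  have hc0 : c0.re = 1 / 2 ∧ c0.im = 1 / 2 := ⟨rfl, rfl⟩
  rcases hs0 with hs | hs <;> rcases ht0 with ht | ht <;> rcases hσ with rfl | rfl <;>
    rw [hs] at e1 e2 <;> rw [ht] at e3 e4 <;>
    simp only [sub_self, zero_mul, mul_zero, neg_zero, add_sub_cancel_left, one_mul, neg_mul,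
      neg_neg, sub_add_cancel_left] at e1 e2 e3 e4
  · have f2 : a2 = 0 := by linarith [e2.2, e4.1]
    have f1 : a1 = 1 := eq_one_of_sq ha f2 e2.1
    refine hfin (false, false, false) (fun z => ?_) ?_
    · rw [f1, f2, rl_re, rl_im]; constructor <;> simp
    · apply Complex.ext <;> simp [rl_re, rl_im, hs, ht, hc0] <;> ring_nf
  · have f1 : a1 = 0 := by linarith [e2.1, e4.2]
    have f2 : a2 = 1 := eq_one_of_sq (by linarith) f1 e2.2
    refine hfin (true, false, false) (fun z => ?_) ?_
    · rw [f1, f2, rl_re, rl_im]; constructor <;> simp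
    · apply Complex.ext <;> simp [rl_re, rl_im, hs, ht, hc0] <;> ring_nf
  · have f1 : a1 = 0 := by linarith [e2.1, e3.2]
    have f2 : a2 = 1 := eq_one_of_sq (by linarith) f1 e2.2
    refine hfin (true, true, false) (fun z => ?_) ?_
    · rw [f1, f2, rl_re, rl_im]; constructor <;> simp
    · apply Complex.ext <;> simp [rl_re, rl_im, hs, ht, hc0] <;> ring_nf
  · have f2 : a2 = 0 := by linarith [e2.2, e3.1]
    have f1 : a1 = 1 := eq_one_of_sq ha f2 e2.1
    refine hfin (false, false, true) (fun z => ?_) ?_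
    · rw [f1, f2, rl_re, rl_im]; constructor <;> simp
    · apply Complex.ext <;> simp [rl_re, rl_im, hs, ht, hc0] <;> ring_nf
  · have f1 : a1 = 0 := by linarith [e1.1, e4.2]
    have f2 : a2 = -1 := eq_neg_one_of_sq (by linarith) f1 (by linarith [e1.2])
    refine hfin (true, false, true) (fun z => ?_) ?_
    · rw [f1, f2, rl_re, rl_im]; constructor <;> simp
    · apply Complex.ext <;> simp [rl_re, rl_im, hs, ht, hc0] <;> ring_nf
  · have f2 : a2 = 0 := by linarith [e1.2, e4.1]
    have f1 : a1 = -1 := eq_neg_one_of_sq ha f2 (by linarith [e1.1])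
    refine hfin (false, true, false) (fun z => ?_) ?_
    · rw [f1, f2, rl_re, rl_im]; constructor <;> simp
    · apply Complex.ext <;> simp [rl_re, rl_im, hs, ht, hc0] <;> ring_nf
  · have f2 : a2 = 0 := by linarith [e1.2, e3.1]
    have f1 : a1 = -1 := eq_neg_one_of_sq ha f2 (by linarith [e1.1])
    refine hfin (false, true, true) (fun z => ?_) ?_
    · rw [f1, f2, rl_re, rl_im]; constructor <;> simp
    · apply Complex.ext <;> simp [rl_re, rl_im, hs, ht, hc0] <;> ring_nf
  · have f1 : a1 = 0 := by linarith [e1.1, e3.2]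
    have f2 : a2 = -1 := eq_neg_one_of_sq (by linarith) f1 (by linarith [e1.2])
    refine hfin (true, true, true) (fun z => ?_) ?_
    · rw [f1, f2, rl_re, rl_im]; constructor <;> simp
    · apply Complex.ext <;> simp [rl_re, rl_im, hs, ht, hc0] <;> ring_nf

end Omino
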