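import Pool.Agent.Lib.MP_8bb6bd_co.Main

/-!
# Large `n`: a cavity made of two rooms
-/

namespace Omino

/-- The polyomino enclosing the two rooms. -/
noncomputable def big (a L : ℕ) : Finset (ℤ × ℤ) :=
  ((((({(0 : ℤ)} ×ˢ Finset.Icc (0 : ℤ) (6 + L)) ∪ ({(2 * a + 2 : ℤ)} ×ˢ Finset.Icc (0 : ℤ) 6)) ∪
    (Finset.Icc (1 : ℤ) (2 * a + 1) ×ˢ {(6 : ℤ)})) ∪ (Finset.Icc (1 : ℤ) a ×ˢ {(0 : ℤ)})) ∪
    (Finset.Icc (a + 2 : ℤ) (2 * a + 1) ×ˢ {(0 : ℤ)})) ∪
    ({(a + 1 : ℤ)} ×ˢ Finset.Icc (2 : ℤ) 5)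

theorem mem_big {a L : ℕ} {x y : ℤ} : (x, y) ∈ big a L ↔
    (x = 0 ∧ 0 ≤ y ∧ y ≤ 6 + L) ∨ (x = 2 * a + 2 ∧ 0 ≤ y ∧ y ≤ 6) ∨
    (1 ≤ x ∧ x ≤ 2 * a + 1 ∧ y = 6) ∨ (1 ≤ x ∧ x ≤ a ∧ y = 0) ∨
    (a + 2 ≤ x ∧ x ≤ 2 * a + 1 ∧ y = 0) ∨ (x = a + 1 ∧ 2 ≤ y ∧ y ≤ 5) := by
  simp only [big, Finset.mem_union, Finset.mem_product, Finset.mem_singleton, Finset.mem_Icc]
  omega

/-- The two rooms. -/
noncomputable def rooms (a : ℕ) : Finset (ℤ × ℤ) :=
  (Finset.Icc (1 : ℤ) a ×ˢ Finset.Icc (1 : ℤ) 5) ∪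
    (Finset.Icc (a + 2 : ℤ) (2 * a + 1) ×ˢ Finset.Icc (1 : ℤ) 5)

theorem mem_rooms {a : ℕ} {x y : ℤ} : (x, y) ∈ rooms a ↔
    ((1 ≤ x ∧ x ≤ a) ∨ (a + 2 ≤ x ∧ x ≤ 2 * a + 1)) ∧ 1 ≤ y ∧ y ≤ 5 := by
  simp only [rooms, Finset.mem_union, Finset.mem_product, Finset.mem_Icc]
  omega

theorem card_rooms (a : ℕ) : (rooms a).card = 10 * a := by
  unfold rooms
  rw [Finset.card_union_of_disjoint, Finset.card_product, Finset.card_product, Int.card_Icc,
    Int.card_Icc, Int.card_Icc]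
  · have h1 : ((a : ℤ) + 1 - 1).toNat = a := by omega
    have h2 : ((2 * a + 1 : ℤ) + 1 - (a + 2)).toNat = a := by omega
    have h3 : ((5 : ℤ) + 1 - 1).toNat = 5 := by decide
    rw [h1, h2, h3]
    ring
  · rw [Finset.disjoint_left]
    rintro ⟨x, y⟩ h1 h2
    simp only [Finset.mem_product, Finset.mem_Icc] at h1 h2
    omega

theorem card_big (a L : ℕ) : (big a L).card = 4 * a + 19 + L := by
  unfold big
  rw [Finset.card_union_of_disjoint, Finset.card_union_of_disjoint,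
    Finset.card_union_of_disjoint, Finset.card_union_of_disjoint, Finset.card_union_of_disjoint]
  · simp only [Finset.card_product, Finset.card_singleton, Int.card_Icc]
    omega
  all_goals
    rw [Finset.disjoint_left]
    rintro ⟨x, y⟩ h1 h2
    simp only [Finset.mem_union, Finset.mem_product, Finset.mem_singleton, Finset.mem_Icc]
      at h1 h2
    omega

theorem conn_big (a L : ℕ) : EdgeConn (big a L : Set (ℤ × ℤ)) := by
  apply edgeConn_of_flow (b := (0, 0)) (fun c =>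
    (if c.1 = 0 then c.2 else if c.2 = 6 then 6 + c.1 else
      if c.1 = 2 * a + 2 then 6 + (2 * a + 2) + (6 - c.2) else
      if c.2 = 0 ∧ c.1 ≤ a then c.1 else
      if c.2 = 0 then 6 + (2 * a + 2) + 6 + (2 * a + 2 - c.1) else
      6 + (a + 1) + (6 - c.2)).toNat)
  rintro ⟨x, y⟩ hc hne
  have hne' : x ≠ 0 ∨ y ≠ 0 := by
    by_contra hcon
    push Not at hcon
    exact hne (by rw [hcon.1, hcon.2])
  rw [Finset.mem_coe, mem_big] at hc
  by_cases h0 : x = 0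
  · refine ⟨(x, y - 1), ?_, by simp [Adj], ?_⟩
    · rw [Finset.mem_coe, mem_big]; omega
    · simp only; split_ifs <;> omega
  by_cases h1 : y = 6
  · refine ⟨(x - 1, y), ?_, by simp [Adj], ?_⟩
    · rw [Finset.mem_coe, mem_big]; omega
    · simp only; split_ifs <;> omega
  by_cases h2 : x = 2 * a + 2
  · refine ⟨(x, y + 1), ?_, by simp [Adj], ?_⟩
    · rw [Finset.mem_coe, mem_big]; omega
    · simp only; split_ifs <;> omega
  by_cases h3 : y = 0 ∧ x ≤ a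
  · refine ⟨(x - 1, y), ?_, by simp [Adj], ?_⟩
    · rw [Finset.mem_coe, mem_big]; omega
    · simp only; split_ifs <;> omega
  by_cases h4 : y = 0
  · refine ⟨(x + 1, y), ?_, by simp [Adj], ?_⟩
    · rw [Finset.mem_coe, mem_big]; omega
    · simp only; split_ifs <;> omega
  · refine ⟨(x, y + 1), ?_, by simp [Adj], ?_⟩
    · rw [Finset.mem_coe, mem_big]; omega
    · simp only; split_ifs <;> omega

theorem conn_big_compl (a L : ℕ) : EdgeConn ((big a L : Set (ℤ × ℤ))ᶜ) := by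
  have hm : ∀ x y : ℤ, (x, y) ∈ ((big a L : Set (ℤ × ℤ))ᶜ) ↔ ¬ ((x, y) ∈ big a L) := fun x y =>
    Iff.rfl
  apply edgeConn_of_flow (b := ((a : ℤ) + 1, -1)) (fun c =>
    (if c.2 ≤ -1 then |c.1 - (a + 1)| + (-1 - c.2) else
      if 0 ≤ c.1 ∧ c.1 ≤ 2 * a + 2 ∧ 7 ≤ c.2 then (2 * a + 3 - c.1) + (a + 2) + (c.2 + 1) else
      |c.1 - (a + 1)| + c.2 + 1).toNat)
  rintro ⟨x, y⟩ hc hne
  rw [hm, mem_big] at hc
  have hne' : ¬ (x = a + 1 ∧ y = -1) := by
    rintro ⟨h1, h2⟩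
    exact hne (by rw [h1, h2])
  -- the possible moves
  have mv : ∀ x' y' : ℤ, ((x', y') : ℤ × ℤ) ∉ big a L → Adj (x, y) (x', y') →
      ((if y' ≤ -1 then |x' - (a + 1)| + (-1 - y') else
        if 0 ≤ x' ∧ x' ≤ 2 * a + 2 ∧ 7 ≤ y' then (2 * a + 3 - x') + (a + 2) + (y' + 1) else
        |x' - (a + 1)| + y' + 1).toNat <
      (if y ≤ -1 then |x - (a + 1)| + (-1 - y) else
        if 0 ≤ x ∧ x ≤ 2 * a + 2 ∧ 7 ≤ y then (2 * a + 3 - x) + (a + 2) + (y + 1) else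
        |x - (a + 1)| + y + 1).toNat) →
      ∃ z ∈ ((big a L : Set (ℤ × ℤ))ᶜ), Adj (x, y) z ∧
      (if z.2 ≤ -1 then |z.1 - (a + 1)| + (-1 - z.2) else
        if 0 ≤ z.1 ∧ z.1 ≤ 2 * a + 2 ∧ 7 ≤ z.2 then (2 * a + 3 - z.1) + (a + 2) + (z.2 + 1) else
        |z.1 - (a + 1)| + z.2 + 1).toNat <
      (if y ≤ -1 then |x - (a + 1)| + (-1 - y) else
        if 0 ≤ x ∧ x ≤ 2 * a + 2 ∧ 7 ≤ y then (2 * a + 3 - x) + (a + 2) + (y + 1) else
        |x - (a + 1)| + y + 1).toNat := fun x' y' h1 h2 h3 => ⟨(x', y'), h1, h2, h3⟩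
  have aL : ∀ u : ℤ, u ≤ 0 → |u| = -u := fun u hu => abs_of_nonpos hu
  have aR : ∀ u : ℤ, 0 ≤ u → |u| = u := fun u hu => abs_of_nonneg hu
  by_cases h1 : y ≤ -2
  · refine mv x (y + 1) ?_ (by simp [Adj]) ?_
    · rw [mem_big]; omega
    · rw [if_pos (by omega), if_pos (by omega)]
      have := abs_nonneg (x - (a + 1))
      omega
  by_cases h2 : y = -1
  · rcases lt_trichotomy x (a + 1) with hx | hx | hx
    · refine mv (x + 1) y ?_ (by simp [Adj]) ?_
      · rw [mem_big]; omega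
      · rw [if_pos (by omega), if_pos (by omega), aL _ (by omega), aL _ (by omega)]
        omega
    · exact absurd ⟨hx, h2⟩ hne'
    · refine mv (x - 1) y ?_ (by simp [Adj]) ?_
      · rw [mem_big]; omega
      · rw [if_pos (by omega), if_pos (by omega), aR _ (by omega), aR _ (by omega)]
        omega
  by_cases h3 : x ≤ -1 ∨ 2 * (a : ℤ) + 3 ≤ x
  · refine mv x (y - 1) ?_ (by simp [Adj]) ?_
    · rw [mem_big]; omega
    · rw [if_neg (show ¬ y ≤ -1 by omega), if_neg (show ¬ (0 ≤ x ∧ x ≤ 2 * a + 2 ∧ 7 ≤ y) by omega)]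
      by_cases h4 : y - 1 ≤ -1
      · rw [if_pos h4]
        have := abs_nonneg (x - (a + 1))
        omega
      · rw [if_neg h4, if_neg (by omega)]
        have := abs_nonneg (x - (a + 1))
        omega
  by_cases h5 : 7 ≤ y
  · refine mv (x + 1) y ?_ (by simp [Adj]) ?_
    · rw [mem_big]; omega
    · rw [if_neg (by omega), if_neg (show ¬ y ≤ -1 by omega),
        if_pos (show (0 ≤ x ∧ x ≤ 2 * a + 2 ∧ 7 ≤ y) by omega)]
      by_cases h6 : x + 1 ≤ 2 * a + 2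
      · rw [if_pos (by omega)]
        omega
      · rw [if_neg (by omega), aR _ (by omega)]
        omega
  -- inside the frame
  have hin : ∀ y' : ℤ, 0 ≤ y' → y' ≤ 6 → ∀ x' : ℤ,
      (if y' ≤ -1 then |x' - (a + 1)| + (-1 - y') else
        if 0 ≤ x' ∧ x' ≤ 2 * a + 2 ∧ 7 ≤ y' then (2 * a + 3 - x') + (a + 2) + (y' + 1) else
        |x' - (a + 1)| + y' + 1) = |x' - (a + 1)| + y' + 1 := by
    intro y' h1 h2 x'
    rw [if_neg (by omega), if_neg (by omega)]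
  by_cases h7 : y = 0
  · refine mv x (y - 1) ?_ (by simp [Adj]) ?_
    · rw [mem_big]; omega
    · rw [hin y (by omega) (by omega), if_pos (by omega)]
      have := abs_nonneg (x - (a + 1))
      omega
  by_cases h8 : 2 ≤ y ∨ x = a + 1
  · refine mv x (y - 1) ?_ (by simp [Adj]) ?_
    · rw [mem_big]; omega
    · rw [hin y (by omega) (by omega), hin (y - 1) (by omega) (by omega)]
      have := abs_nonneg (x - (a + 1))
      omega
  by_cases h9 : x < a + 1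
  · refine mv (x + 1) y ?_ (by simp [Adj]) ?_
    · rw [mem_big]; omega
    · rw [hin y (by omega) (by omega), hin y (by omega) (by omega), aL _ (by omega),
        aL _ (by omega)]
      omega
  · refine mv (x - 1) y ?_ (by simp [Adj]) ?_
    · rw [mem_big]; omega
    · rw [hin y (by omega) (by omega), hin y (by omega) (by omega), aR _ (by omega),
        aR _ (by omega)]
      omega

theorem case_large {n : ℕ} (hn : 35 ≤ n) (k : SetKind) (𝒜 : Set (Set ℂ)) (hA : IsPatch (motions k) n 𝒜) :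
    ¬ TilesPlane (⋃₀ 𝒜) := by
  obtain ⟨a, ha1, ha2⟩ : ∃ a : ℕ, n ≤ 10 * a ∧ 10 * a ≤ n + 9 := ⟨(n + 9) / 10, by omega, by omega⟩
  have ha : 4 ≤ a := by omega
  obtain ⟨L, hL⟩ : ∃ L, n = 4 * a + 19 + L := ⟨n - (4 * a + 19), by omega⟩
  have hQ : IsOmino n (big a L) := ⟨by rw [card_big, hL], conn_big a L, conn_big_compl a L⟩
  refine no_tiling_large hQ (rooms a) ((a : ℤ) + 1, 1) (v0 := (1, 1)) ?_ ?_ ?_ ?_ ?_ ?_ ?_ ?_ k 𝒜 hA
  · rintro ⟨x, y⟩ h1 h2
    rw [mem_rooms] at h1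
    rw [mem_big] at h2
    omega
  · rintro ⟨x, y⟩ h1 ⟨x', y'⟩ hxy
    rw [mem_rooms] at h1
    rw [mem_rooms, mem_big, Prod.mk.injEq]
    rcases adj_iff.1 hxy with h | h | h | h <;> rw [Prod.mk.injEq] at h <;> simp only at h <;>
      obtain ⟨rfl, rfl⟩ := h <;> omega
  · rw [mem_rooms]
    omega
  · rw [card_rooms]
    exact ha1
  · intro C hC hCn hCc
    -- `C` lies in one room
    have hCne : C.Nonempty := by
      rw [← Finset.card_pos]; omega
    have hroom : ∀ R : Finset (ℤ × ℤ), R.card = 5 * a → ¬ C ⊆ R := by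
      intro R hR hCR
      have := Finset.card_le_card hCR
      omega
    have hc1 : (Finset.Icc (1 : ℤ) a ×ˢ Finset.Icc (1 : ℤ) 5).card = 5 * a := by
      rw [Finset.card_product, Int.card_Icc, Int.card_Icc]
      have h1 : ((a : ℤ) + 1 - 1).toNat = a := by omega
      have h3 : ((5 : ℤ) + 1 - 1).toNat = 5 := by decide
      rw [h1, h3]; ring
    have hc2 : (Finset.Icc (a + 2 : ℤ) (2 * a + 1) ×ˢ Finset.Icc (1 : ℤ) 5).card = 5 * a := by
      rw [Finset.card_product, Int.card_Icc, Int.card_Icc]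
      have h1 : ((2 * a + 1 : ℤ) + 1 - (a + 2)).toNat = a := by omega
      have h3 : ((5 : ℤ) + 1 - 1).toNat = 5 := by decide
      rw [h1, h3]; ring
    have h1 : ∃ p ∈ C, p.1 ≤ a := by
      by_contra hcon
      push Not at hcon
      apply hroom _ hc2
      rintro ⟨x, y⟩ hp
      have h2 := hC hp
      have h3 := hcon _ hp
      rw [mem_rooms] at h2
      simp only at h3
      rw [Finset.mem_product, Finset.mem_Icc, Finset.mem_Icc]
      simp only
      omega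
    have h2 : ∃ p ∈ C, ¬ p.1 ≤ a := by
      by_contra hcon
      push Not at hcon
      apply hroom _ hc1
      rintro ⟨x, y⟩ hp
      have h2 := hC hp
      have h3 := hcon _ hp
      rw [mem_rooms] at h2
      simp only at h3
      rw [Finset.mem_product, Finset.mem_Icc, Finset.mem_Icc]
      simp only
      omega
    obtain ⟨p, hp, hpa⟩ := h1
    obtain ⟨q, hq, hqa⟩ := h2
    obtain ⟨⟨x, y⟩, ⟨x', y'⟩, hx, hy, hxy, hxV, hyV⟩ :=
      exit (V := {c : ℤ × ℤ | c.1 ≤ a}) hCc (Finset.mem_coe.2 hp) hpa (Finset.mem_coe.2 hq) hqa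
    have h3 := hC (Finset.mem_coe.1 hx)
    have h4 := hC (Finset.mem_coe.1 hy)
    rw [mem_rooms] at h3 h4
    have h5 : x ≤ a := hxV
    have h6 : ¬ x' ≤ a := hyV
    rcases adj_iff.1 hxy with h | h | h | h <;> rw [Prod.mk.injEq] at h <;> simp only at h <;>
      obtain ⟨rfl, rfl⟩ := h <;> omega
  · rw [mem_rooms]; omega
  · rw [mem_big]; omega
  · rw [mem_big]; omega

end Omino
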