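import Pool.Agent.Lib.MP_8bb6bd_co.Cells

/-!
# The symmetries of the square lattice
-/

namespace Omino

/-- The eight linear symmetries of the square lattice: an optional exchange of the coordinates
followed by optional sign changes. -/
abbrev D4 := Bool × Bool × Bool

/-- The action of `D4` on cells (as vectors). -/
def act (h : D4) (c : ℤ × ℤ) : ℤ × ℤ :=
  (if h.2.1 then -(if h.1 then c.2 else c.1) else (if h.1 then c.2 else c.1),
    if h.2.2 then -(if h.1 then c.1 else c.2) else (if h.1 then c.1 else c.2))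

/-- Multiplication in `D4`. -/
def mul (h g : D4) : D4 :=
  (xor h.1 g.1, xor h.2.1 (if h.1 then g.2.2 else g.2.1), xor h.2.2 (if h.1 then g.2.1 else g.2.2))

/-- Inversion in `D4`. -/
def inv (h : D4) : D4 := (h.1, if h.1 then h.2.2 else h.2.1, if h.1 then h.2.1 else h.2.2)

/-- The identity of `D4`. -/
def one : D4 := (false, false, false)

theorem act_mul (h g : D4) (c : ℤ × ℤ) : act h (act g c) = act (mul h g) c := by
  rcases h with ⟨_ | _, _ | _, _ | _⟩ <;> rcases g with ⟨_ | _, _ | _, _ | _⟩ <;>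
    simp [act, mul]

theorem act_one (c : ℤ × ℤ) : act one c = c := by simp [act, one]

theorem mul_inv (h : D4) : mul h (inv h) = one := by revert h; decide

theorem inv_mul (h : D4) : mul (inv h) h = one := by revert h; decide

theorem mul_assoc' (a b c : D4) : mul (mul a b) c = mul a (mul b c) := by revert a b c; decide

theorem one_mul' (a : D4) : mul one a = a := by revert a; decide

theorem mul_one' (a : D4) : mul a one = a := by revert a; decide

theorem act_add (h : D4) (c d : ℤ × ℤ) : act h (c + d) = act h c + act h d := by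
  rcases h with ⟨_ | _, _ | _, _ | _⟩ <;> ext <;> simp [act] <;> ring

theorem act_sub (h : D4) (c d : ℤ × ℤ) : act h (c - d) = act h c - act h d := by
  rcases h with ⟨_ | _, _ | _, _ | _⟩ <;> ext <;> simp [act] <;> ring

theorem act_zero (h : D4) : act h 0 = 0 := by
  rcases h with ⟨_ | _, _ | _, _ | _⟩ <;> simp [act]

/-- The lattice motion `c ↦ h c + t`. -/
def mv (h : D4) (t : ℤ × ℤ) : Equiv.Perm (ℤ × ℤ) where
  toFun c := act h c + t
  invFun c := act (inv h) (c - t)
  left_inv c := by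
    simp only [add_sub_cancel_right]
    rw [act_mul, inv_mul, act_one]
  right_inv c := by
    simp only
    rw [act_mul, mul_inv, act_one]
    abel

theorem mv_apply (h : D4) (t c : ℤ × ℤ) : mv h t c = act h c + t := rfl

theorem adj_mv (h : D4) (t x y : ℤ × ℤ) : Adj (mv h t x) (mv h t y) ↔ Adj x y := by
  rcases h with ⟨_ | _, _ | _, _ | _⟩ <;> simp only [Adj, mv_apply, act, Prod.fst_add,
    Prod.snd_add, add_sub_add_right_eq_sub, if_true, if_false, Bool.false_eq_true, ite_true,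
    ite_false]
  · rw [show -x.2 - -y.2 = -(x.2 - y.2) by ring, abs_neg]
  · rw [show -x.1 - -y.1 = -(x.1 - y.1) by ring, abs_neg]
  · rw [show -x.1 - -y.1 = -(x.1 - y.1) by ring, abs_neg,
      show -x.2 - -y.2 = -(x.2 - y.2) by ring, abs_neg]
  · rw [add_comm]
  · rw [show -x.1 - -y.1 = -(x.1 - y.1) by ring, abs_neg, add_comm]
  · rw [show -x.2 - -y.2 = -(x.2 - y.2) by ring, abs_neg, add_comm]
  · rw [show -x.1 - -y.1 = -(x.1 - y.1) by ring, abs_neg,
      show -x.2 - -y.2 = -(x.2 - y.2) by ring, abs_neg, add_comm]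

/-- A bijection of the cells preserving adjacency preserves connectedness. -/
theorem edgeConn_image {A : Set (ℤ × ℤ)} (hA : EdgeConn A) (e : Equiv.Perm (ℤ × ℤ))
    (he : ∀ x y, Adj x y → Adj (e x) (e y)) : EdgeConn (e '' A) := by
  rintro _ ⟨a, ha, rfl⟩ _ ⟨b, hb, rfl⟩
  have h := hA a ha b hb
  induction h with
  | refl => exact Relation.ReflTransGen.refl
  | @tail x y _ hxy ih =>
    exact (ih hxy.2.1).tail ⟨he _ _ hxy.1, ⟨x, hxy.2.1, rfl⟩, ⟨y, hxy.2.2, rfl⟩⟩

/-- The image of a finite set of cells under a lattice motion. -/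
def mvF (h : D4) (t : ℤ × ℤ) (P : Finset (ℤ × ℤ)) : Finset (ℤ × ℤ) :=
  P.map (mv h t).toEmbedding

theorem mem_mvF {h : D4} {t : ℤ × ℤ} {P : Finset (ℤ × ℤ)} {c : ℤ × ℤ} :
    c ∈ mvF h t P ↔ ∃ x ∈ P, mv h t x = c := by
  rw [mvF, Finset.mem_map]
  rfl

theorem mv_mem_mvF {h : D4} {t : ℤ × ℤ} {P : Finset (ℤ × ℤ)} {c : ℤ × ℤ} :
    mv h t c ∈ mvF h t P ↔ c ∈ P := by
  simp [mvF]

theorem card_mvF (h : D4) (t : ℤ × ℤ) (P : Finset (ℤ × ℤ)) : (mvF h t P).card = P.card :=
  Finset.card_map _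

theorem coe_mvF (h : D4) (t : ℤ × ℤ) (P : Finset (ℤ × ℤ)) :
    (mvF h t P : Set (ℤ × ℤ)) = mv h t '' (P : Set (ℤ × ℤ)) := by
  simp [mvF]

theorem isOmino_mvF {n : ℕ} {P : Finset (ℤ × ℤ)} (hP : IsOmino n P) (h : D4) (t : ℤ × ℤ) :
    IsOmino n (mvF h t P) := by
  obtain ⟨h1, h2, h3⟩ := hP
  refine ⟨by rw [card_mvF, h1], ?_, ?_⟩
  · rw [coe_mvF]
    exact edgeConn_image h2 _ fun x y => (adj_mv h t x y).2
  · rw [coe_mvF, ← Set.image_compl_eq (mv h t).bijective]
    exact edgeConn_image h3 _ fun x y => (adj_mv h t x y).2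

/-! ### The corresponding isometries of the plane -/

/-- The linear action of `D4` on the plane. -/
noncomputable def rl (h : D4) (z : ℂ) : ℂ :=
  ⟨if h.2.1 then -(if h.1 then z.im else z.re) else (if h.1 then z.im else z.re),
    if h.2.2 then -(if h.1 then z.re else z.im) else (if h.1 then z.re else z.im)⟩

theorem rl_re (h : D4) (z : ℂ) : (rl h z).re =
    if h.2.1 then -(if h.1 then z.im else z.re) else (if h.1 then z.im else z.re) := rfl

theorem rl_im (h : D4) (z : ℂ) : (rl h z).im =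
    if h.2.2 then -(if h.1 then z.re else z.im) else (if h.1 then z.re else z.im) := rfl

theorem rl_mul (h g : D4) (z : ℂ) : rl h (rl g z) = rl (mul h g) z := by
  rcases h with ⟨_ | _, _ | _, _ | _⟩ <;> rcases g with ⟨_ | _, _ | _, _ | _⟩ <;>
    apply Complex.ext <;> simp [rl_re, rl_im, mul]

theorem rl_one (z : ℂ) : rl one z = z := by
  apply Complex.ext <;> simp [rl_re, rl_im, one]

theorem rl_sub (h : D4) (z w : ℂ) : rl h (z - w) = rl h z - rl h w := by
  rcases h with ⟨_ | _, _ | _, _ | _⟩ <;> apply Complex.ext <;> simp [rl_re, rl_im] <;> ring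

theorem rl_add (h : D4) (z w : ℂ) : rl h (z + w) = rl h z + rl h w := by
  rcases h with ⟨_ | _, _ | _, _ | _⟩ <;> apply Complex.ext <;> simp [rl_re, rl_im] <;> ring

theorem norm_rl (h : D4) (z : ℂ) : ‖rl h z‖ = ‖z‖ := by
  rw [Complex.norm_eq_sqrt_sq_add_sq, Complex.norm_eq_sqrt_sq_add_sq]
  congr 1
  rcases h with ⟨_ | _, _ | _, _ | _⟩ <;> simp [rl_re, rl_im] <;> ring

/-- The centre of the cell `0`. -/
noncomputable def c0 : ℂ := ⟨1 / 2, 1 / 2⟩

/-- A lattice vector as a complex number. -/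
def vec (t : ℤ × ℤ) : ℂ := ⟨t.1, t.2⟩

@[simp] theorem vec_re (t : ℤ × ℤ) : (vec t).re = t.1 := rfl

@[simp] theorem vec_im (t : ℤ × ℤ) : (vec t).im = t.2 := rfl

theorem rl_vec (h : D4) (t : ℤ × ℤ) : rl h (vec t) = vec (act h t) := by
  rcases h with ⟨_ | _, _ | _, _ | _⟩ <;> apply Complex.ext <;> simp [rl_re, rl_im, act]

theorem vec_add (s t : ℤ × ℤ) : vec (s + t) = vec s + vec t := by
  apply Complex.ext <;> simp

theorem vec_neg (t : ℤ × ℤ) : vec (-t) = - vec t := by
  apply Complex.ext <;> simp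

/-- The isometry of the plane which realises the lattice motion `mv h t`. -/
noncomputable def lm (h : D4) (t : ℤ × ℤ) : ℂ ≃ᵢ ℂ :=
  IsometryEquiv.mk' (fun z => rl h (z - c0) + c0 + vec t)
    (fun z => rl (inv h) (z - vec t - c0) + c0)
    (fun z => by
      simp only [add_sub_cancel_right]
      rw [rl_mul, mul_inv, rl_one]
      ring)
    (Isometry.of_dist_eq fun z w => by
      rw [dist_eq_norm, dist_eq_norm]
      have : rl h (z - c0) + c0 + vec t - (rl h (w - c0) + c0 + vec t) = rl h (z - w) := by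
        have e : z - w = (z - c0) - (w - c0) := by ring
        rw [e, rl_sub h (z - c0)]
        ring
      rw [this, norm_rl])

theorem lm_apply (h : D4) (t : ℤ × ℤ) (z : ℂ) : lm h t z = rl h (z - c0) + c0 + vec t := rfl

theorem mem_square {c : ℤ × ℤ} {z : ℂ} : z ∈ square c ↔
    (c.1 : ℝ) ≤ z.re ∧ z.re ≤ c.1 + 1 ∧ (c.2 : ℝ) ≤ z.im ∧ z.im ≤ c.2 + 1 := Iff.rfl

theorem lm_mem_square (h : D4) (t c : ℤ × ℤ) (z : ℂ) :
    lm h t z ∈ square (mv h t c) ↔ z ∈ square c := by
  rw [mem_square, mem_square]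
  rcases h with ⟨_ | _, _ | _, _ | _⟩ <;>
    simp only [lm_apply, mv_apply, act, rl_re, rl_im, c0, Complex.add_re, Complex.add_im,
      Complex.sub_re, Complex.sub_im, vec_re, vec_im, Prod.fst_add, Prod.snd_add, Int.cast_add,
      Int.cast_neg, if_true, if_false, Bool.false_eq_true, ite_true, ite_false] <;>
    constructor <;> rintro ⟨h1, h2, h3, h4⟩ <;> refine ⟨?_, ?_, ?_, ?_⟩ <;> linarith

theorem lm_image_square (h : D4) (t c : ℤ × ℤ) : lm h t '' square c = square (mv h t c) := by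
  ext w
  constructor
  · rintro ⟨z, hz, rfl⟩
    exact (lm_mem_square h t c z).2 hz
  · intro hw
    obtain ⟨z, rfl⟩ := (lm h t).surjective w
    exact ⟨z, (lm_mem_square h t c z).1 hw, rfl⟩

theorem lm_image_region (h : D4) (t : ℤ × ℤ) (P : Finset (ℤ × ℤ)) :
    lm h t '' region P = region (mvF h t P) := by
  simp only [region, Set.image_iUnion, lm_image_square]
  ext w
  simp only [Set.mem_iUnion]
  constructor
  · rintro ⟨c, hc, hw⟩
    exact ⟨mv h t c, mv_mem_mvF.2 hc, hw⟩
  · rintro ⟨c, hc, hw⟩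
    obtain ⟨x, hx, rfl⟩ := mem_mvF.1 hc
    exact ⟨x, hx, hw⟩

end Omino
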