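import Pool.Agent.Lib.MP_8bb6bd_co.Count

/-!
# Patches made of a set of `n`-ominoes: the obstruction
-/

namespace Omino

/-! ### The allowed motions -/

/-- The three kinds of sets of `n`-ominoes. -/
inductive SetKind
  | basic
  | reflective
  | full

/-- The motions of the plane allowed for the tiles: all isometries for a basic set, rotations and
translations for a reflective set, translations for a full set. -/
def motions : SetKind → Set (ℂ ≃ᵢ ℂ)
  | SetKind.basic => Set.univ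
  | SetKind.reflective => {φ | ∃ a b : ℂ, ∀ z, φ z = a * z + b}
  | SetKind.full => {φ | ∃ b : ℂ, ∀ z, φ z = z + b}

theorem motions_trans {k : SetKind} {φ ψ : ℂ ≃ᵢ ℂ} (h1 : φ ∈ motions k) (h2 : ψ ∈ motions k) :
    φ.trans ψ ∈ motions k := by
  rcases k with _ | _ | _
  · trivial
  · obtain ⟨a, b, h1⟩ := h1
    obtain ⟨c, d, h2⟩ := h2
    refine ⟨c * a, c * b + d, fun z => ?_⟩
    rw [IsometryEquiv.trans_apply, h1, h2]
    ring
  · obtain ⟨b, h1⟩ := h1
    obtain ⟨d, h2⟩ := h2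
    refine ⟨b + d, fun z => ?_⟩
    rw [IsometryEquiv.trans_apply, h1, h2]
    ring

theorem motions_symm {k : SetKind} {φ : ℂ ≃ᵢ ℂ} (h1 : φ ∈ motions k) : φ.symm ∈ motions k := by
  rcases k with _ | _ | _
  · trivial
  · obtain ⟨a, b, h1⟩ := h1
    have ha : a ≠ 0 := by
      rintro rfl
      have : φ 0 = φ 1 := by rw [h1, h1]; ring
      exact zero_ne_one (φ.injective this)
    refine ⟨a⁻¹, -(a⁻¹ * b), fun z => ?_⟩
    apply φ.injective
    rw [φ.apply_symm_apply, h1]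
    field_simp
    ring
  · obtain ⟨b, h1⟩ := h1
    refine ⟨-b, fun z => ?_⟩
    apply φ.injective
    rw [φ.apply_symm_apply, h1]
    ring

theorem motions_refl (k : SetKind) : IsometryEquiv.refl ℂ ∈ motions k := by
  rcases k with _ | _ | _
  · trivial
  · exact ⟨1, 0, fun z => by change z = 1 * z + 0; ring⟩
  · exact ⟨0, fun z => by change z = z + 0; ring⟩

/-- Representatives of the positions of a cell set up to the allowed motions. -/
def Dk : SetKind → Finset D4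
  | SetKind.basic => {(false, false, false)}
  | SetKind.reflective => {(false, false, false), (false, false, true)}
  | SetKind.full => Finset.univ

theorem one_mem_Dk (k : SetKind) : one ∈ Dk k := by
  rcases k with _ | _ | _ <;> simp [Dk, one]

/-- The rotations in `D4`. -/
def rot : Finset D4 :=
  {(false, false, false), (true, true, false), (false, true, true), (true, false, true)}

theorem rot_split (h : D4) : ∃ d ∈ Dk SetKind.reflective, mul h (inv d) ∈ rot := by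
  revert h; decide

theorem rot_uniq : ∀ d ∈ Dk SetKind.reflective, ∀ d' ∈ Dk SetKind.reflective,
    mul d' (inv d) ∈ rot → d = d' := by
  decide

theorem lm_rot {r : D4} (hr : r ∈ rot) (t : ℤ × ℤ) : lm r t ∈ motions SetKind.reflective := by
  have : ∃ a : ℂ, ∀ z, rl r z = a * z := by
    simp only [rot, Finset.mem_insert, Finset.mem_singleton] at hr
    rcases hr with rfl | rfl | rfl | rfl
    · exact ⟨1, fun z => by apply Complex.ext <;> simp [rl_re, rl_im]⟩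
    · exact ⟨Complex.I, fun z => by apply Complex.ext <;> simp [rl_re, rl_im]⟩
    · exact ⟨-1, fun z => by apply Complex.ext <;> simp [rl_re, rl_im]⟩
    · exact ⟨-Complex.I, fun z => by apply Complex.ext <;> simp [rl_re, rl_im]⟩
  obtain ⟨a, ha⟩ := this
  refine ⟨a, -(a * c0) + c0 + vec t, fun z => ?_⟩
  rw [lm_apply, ha]
  ring

theorem rot_of_lm {r : D4} {t : ℤ × ℤ} (h : lm r t ∈ motions SetKind.reflective) : r ∈ rot := by
  obtain ⟨a, b, h⟩ := h
  have h1 : rl r 1 = a := by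
    have e1 := h (1 + c0)
    have e2 := h c0
    rw [lm_apply, add_sub_cancel_right] at e1
    rw [lm_apply, sub_self] at e2
    have e3 : rl r 0 = 0 := by
      have := rl_sub r 0 0
      simpa using this
    rw [e3] at e2
    linear_combination e1 - e2
  have h2 : rl r Complex.I = a * Complex.I := by
    have e1 := h (Complex.I + c0)
    have e2 := h c0
    rw [lm_apply, add_sub_cancel_right] at e1
    rw [lm_apply, sub_self] at e2
    have e3 : rl r 0 = 0 := by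
      have := rl_sub r 0 0
      simpa using this
    rw [e3] at e2
    linear_combination e1 - e2
  rw [← h1] at h2
  rcases r with ⟨_ | _, _ | _, _ | _⟩ <;> first
    | decide
    | (exfalso
       have h3 := congrArg Complex.re h2
       have h4 := congrArg Complex.im h2
       simp [rl_re, rl_im] at h3 h4
       try norm_num at h3
       try norm_num at h4)

theorem one_of_lm {r : D4} {t : ℤ × ℤ} (h : lm r t ∈ motions SetKind.full) : r = one := by
  obtain ⟨b, h⟩ := h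
  have h0 : ∀ w, rl r w = w := by
    intro w
    have e1 := h (w + c0)
    have e2 := h c0
    rw [lm_apply, add_sub_cancel_right] at e1
    rw [lm_apply, sub_self] at e2
    have e3 : rl r 0 = 0 := by
      have := rl_sub r 0 0
      simpa using this
    rw [e3] at e2
    linear_combination e1 - e2
  have h1 := h0 1
  have h2 := h0 Complex.I
  rcases r with ⟨_ | _, _ | _, _ | _⟩ <;> first
    | rfl
    | (exfalso
       have h3 := congrArg Complex.re h1
       have h4 := congrArg Complex.im h1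
       have h5 := congrArg Complex.re h2
       have h6 := congrArg Complex.im h2
       simp [rl_re, rl_im] at h3 h4 h5 h6
       try norm_num at h3
       try norm_num at h6)

theorem lm_one (t : ℤ × ℤ) : lm one t ∈ motions SetKind.full := by
  refine ⟨vec t, fun z => ?_⟩
  rw [lm_apply, rl_one]
  ring

theorem Dk_split (k : SetKind) (h : D4) :
    ∃ d ∈ Dk k, ∃ r, mul r d = h ∧ ∀ t, lm r t ∈ motions k := by
  rcases k with _ | _ | _
  · exact ⟨one, by simp [Dk, one], h, mul_one' h, fun _ => trivial⟩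
  · obtain ⟨d, hd, hr⟩ := rot_split h
    refine ⟨d, hd, mul h (inv d), ?_, fun t => lm_rot hr t⟩
    rw [mul_assoc', inv_mul, mul_one']
  · exact ⟨h, by simp [Dk], one, one_mul' h, lm_one⟩

theorem Dk_uniq (k : SetKind) {d d' : D4} (hd : d ∈ Dk k) (hd' : d' ∈ Dk k) {r : D4}
    {t : ℤ × ℤ} (hr : lm r t ∈ motions k) (h : mul r d = d') : d = d' := by
  have hr' : r = mul d' (inv d) := by
    rw [← h, mul_assoc', mul_inv, mul_one']
  rcases k with _ | _ | _
  · simp only [Dk, Finset.mem_singleton] at hd hd'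
    rw [hd, hd']
  · exact rot_uniq d hd d' hd' (hr' ▸ rot_of_lm hr)
  · rw [one_of_lm hr, one_mul'] at h
    exact h

/-! ### Composition of lattice motions -/

theorem mvF_mul (r d : D4) (s t : ℤ × ℤ) (P : Finset (ℤ × ℤ)) :
    mvF r t (mvF d s P) = mvF (mul r d) (act r s + t) P := by
  ext c
  rw [mem_mvF, mem_mvF]
  constructor
  · rintro ⟨x, hx, rfl⟩
    obtain ⟨y, hy, rfl⟩ := mem_mvF.1 hx
    refine ⟨y, hy, ?_⟩
    rw [mv_apply, mv_apply, mv_apply, act_add, act_mul, add_assoc]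
  · rintro ⟨y, hy, rfl⟩
    refine ⟨mv d s y, mv_mem_mvF.2 hy, ?_⟩
    rw [mv_apply, mv_apply, mv_apply, act_add, act_mul, add_assoc]

theorem mvF_one (P : Finset (ℤ × ℤ)) : mvF one 0 P = P := by
  ext c
  rw [mem_mvF]
  constructor
  · rintro ⟨x, hx, rfl⟩
    rw [mv_apply, act_one, add_zero]
    exact hx
  · intro hc
    exact ⟨c, hc, by rw [mv_apply, act_one, add_zero]⟩

theorem mvF_inv (h : D4) (t : ℤ × ℤ) (P : Finset (ℤ × ℤ)) :
    mvF (inv h) (-(act (inv h) t)) (mvF h t P) = P := by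
  rw [mvF_mul, inv_mul, add_neg_cancel, mvF_one]

theorem isOmino_mvF_iff {n : ℕ} {P : Finset (ℤ × ℤ)} {h : D4} {t : ℤ × ℤ} :
    IsOmino n (mvF h t P) ↔ IsOmino n P := by
  constructor
  · intro hP
    have := isOmino_mvF hP (inv h) (-(act (inv h) t))
    rwa [mvF_inv] at this
  · intro hP
    exact isOmino_mvF hP h t

/-! ### Boundedness -/

theorem isBounded_region (P : Finset (ℤ × ℤ)) : Bornology.IsBounded (region P) := by
  unfold region
  rw [Bornology.isBounded_biUnion_finset]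
  intro c _
  refine (Metric.isBounded_closedBall (x := ctr c) (r := 1)).subset ?_
  intro z hz
  rw [Metric.mem_closedBall, dist_comm]
  exact dist_ctr_le hz

theorem isBounded_image (κ : ℂ ≃ᵢ ℂ) {A : Set ℂ} (hA : Bornology.IsBounded A) :
    Bornology.IsBounded (κ '' A) := κ.isometry.lipschitz.isBounded_image hA

/-! ### The tiling by single tiles -/

theorem trans_image (φ ψ : ℂ ≃ᵢ ℂ) (A : Set ℂ) : (φ.trans ψ) '' A = ψ '' (φ '' A) := by
  rw [← Set.image_comp]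
  rfl

/-- The tiling by single tiles coming from a tiling by copies of the union of a patch. -/
theorem tiles_of_patch {n : ℕ} {k : SetKind} {𝒜 : Set (Set ℂ)} {ι : Type}
    {ψ : ι → ℂ ≃ᵢ ℂ} (hcov : (⋃ i, ψ i '' (⋃₀ 𝒜)) = Set.univ)
    (hdis : ∀ i j, i ≠ j → Disjoint (interior (ψ i '' (⋃₀ 𝒜))) (interior (ψ j '' (⋃₀ 𝒜))))
    (hA : IsPatch (motions k) n 𝒜) (Pc : 𝒜 → Finset (ℤ × ℤ)) (φc : 𝒜 → ℂ ≃ᵢ ℂ)
    (hT : ∀ T : 𝒜, (T : Set ℂ) = φc T '' region (Pc T)) :
    Tiles (J := ι × 𝒜) (fun j => (φc j.2).trans (ψ j.1)) (fun j => Pc j.2) := by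
  have e : ∀ j : ι × 𝒜, ((φc j.2).trans (ψ j.1)) '' region (Pc j.2) = ψ j.1 '' (j.2 : Set ℂ) := by
    intro j
    rw [trans_image, ← hT]
  constructor
  · simp only [e]
    rw [← hcov]
    ext z
    simp only [Set.mem_iUnion, Set.mem_image, Set.mem_sUnion, Prod.exists, Subtype.exists]
    constructor
    · rintro ⟨i, T, hT, w, hw, rfl⟩
      exact ⟨i, w, ⟨T, hT, hw⟩, rfl⟩
    · rintro ⟨i, w, ⟨T, hT, hw⟩, rfl⟩
      exact ⟨i, T, hT, w, hw, rfl⟩
  · rintro ⟨i, T⟩ ⟨j, T'⟩ hne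
    rw [e, e]
    by_cases hij : i = j
    · subst hij
      have hTT : (T : Set ℂ) ≠ T' := fun h => hne (by rw [Subtype.ext h])
      simp only
      rw [interior_image, interior_image, Set.disjoint_image_iff (ψ i).injective]
      exact hA.2.2 T T.2 T' T'.2 hTT
    · exact (hdis i j hij).mono
        (interior_mono (Set.image_mono (Set.subset_sUnion_of_mem T.2)))
        (interior_mono (Set.image_mono (Set.subset_sUnion_of_mem T'.2)))

/-- A large cavity which can only be filled by one tile. -/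
theorem no_tiling_large {n : ℕ} {Q : Finset (ℤ × ℤ)} (hQ : IsOmino n Q)
    (V : Finset (ℤ × ℤ)) (g : ℤ × ℤ) (hVQ : ∀ x ∈ V, x ∉ Q)
    (hN : ∀ x ∈ V, ∀ y, Adj x y → y ∈ V ∨ y ∈ Q ∨ y = g) (hgV : g ∉ V) (hV : n ≤ V.card)
    (hno : ∀ C : Finset (ℤ × ℤ), C ⊆ V → C.card = n → ¬ EdgeConn (C : Set (ℤ × ℤ)))
    {v0 : ℤ × ℤ} (hv0 : v0 ∈ V) (hl0 : (v0.1 - 1, v0.2) ∈ Q) (hd0 : (v0.1, v0.2 - 1) ∈ Q)
    (k : SetKind) (𝒜 : Set (Set ℂ)) (hA : IsPatch (motions k) n 𝒜) : ¬ TilesPlane (⋃₀ 𝒜) := by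
  rintro ⟨ι, ψ, hcov, hdis⟩
  choose Pc hPc φc hφc hTc using fun T : 𝒜 => hA.1 T.1 T.2
  have hTil := tiles_of_patch hcov hdis hA Pc φc hTc
  obtain ⟨T, ⟨hT, φ, _, hTφ⟩, _⟩ := hA.2.1 Q hQ
  have hι : Nonempty ι := by
    by_contra hcon
    rw [not_nonempty_iff] at hcon
    have h0 : (0 : ℂ) ∈ ⋃ i, ψ i '' (⋃₀ 𝒜) := by rw [hcov]; trivial
    obtain ⟨i, _⟩ := Set.mem_iUnion.1 h0
    exact hcon.elim i
  obtain ⟨i⟩ := hι
  obtain ⟨j, C, _, _, hCn, _, hVC, hgC, _⟩ := hTil.fill (n := n) (j1 := (i, ⟨T, hT⟩))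
    (κ := φ.trans (ψ i)) (Q := Q) (fun j => (hPc j.2).1) (fun j => (hPc j.2).2.1)
    (by rw [trans_image, trans_image, ← hTc]; exact congrArg (fun X => ψ i '' X) hTφ)
    V g hVQ hN hno hv0 hl0 hd0
  have h1 : insert g V ⊆ C := by
    intro x hx
    rcases Finset.mem_insert.1 hx with rfl | hx
    · exact hgC
    · exact hVC x hx
  have h2 := Finset.card_le_card h1
  rw [Finset.card_insert_of_notMem hgV] at h2
  omega

/-- More pockets than fillers. -/
theorem no_tiling_pocket {n : ℕ} (S W : Finset (ℤ × ℤ)) (g : ℤ × ℤ)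
    (hl : ∀ x ∈ S, (x.1 - 1, x.2) ∈ S ∨ (x.1 - 1, x.2) ∈ W)
    (hu : ∀ x ∈ S, (x.1, x.2 + 1) ∈ S ∨ (x.1, x.2 + 1) ∈ W)
    (hN : ∀ x ∈ S, ∀ y, Adj x y → y ∈ S ∨ y ∈ W ∨ y = g) (hS : n < 2 * S.card)
    (hSn : S.card < n) {v0 : ℤ × ℤ} (hv0 : v0 ∈ S) (hl0 : (v0.1 - 1, v0.2) ∈ W)
    (hd0 : (v0.1, v0.2 - 1) ∈ W)
    (F : Finset (Finset (ℤ × ℤ)))
    (hF : ∀ C : Finset (ℤ × ℤ), (∀ x ∈ S, x ∈ C) → g ∈ C → (∀ x ∈ W, x ∉ C) → C.card = n →
      EdgeConn (C : Set (ℤ × ℤ)) → C ∈ F)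
    {m : ℕ} (hm : F.card < m) (Q : Fin m → Finset (ℤ × ℤ)) (hQ : ∀ a, IsOmino n (Q a))
    (hQW : ∀ a, ∀ x ∈ W, x ∈ Q a) (hQS : ∀ a, ∀ x ∈ S, x ∉ Q a)
    (hcl : ∀ a b h t, mvF h t (Q a) = Q b → a = b ∧ h = one)
    (k : SetKind) (𝒜 : Set (Set ℂ)) (hA : IsPatch (motions k) n 𝒜) : ¬ TilesPlane (⋃₀ 𝒜) := by
  rintro ⟨ι, ψ, hcov, hdis⟩
  choose Pc hPc φc hφc hTc using fun T : 𝒜 => hA.1 T.1 T.2
  have hTil := tiles_of_patch hcov hdis hA Pc φc hTc
  have hι : Nonempty ι := by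
    by_contra hcon
    rw [not_nonempty_iff] at hcon
    have h0 : (0 : ℂ) ∈ ⋃ i, ψ i '' (⋃₀ 𝒜) := by rw [hcov]; trivial
    obtain ⟨i, _⟩ := Set.mem_iUnion.1 h0
    exact hcon.elim i
  obtain ⟨i0⟩ := hι
  -- the pocket tiles
  set α := Fin m × {d // d ∈ Dk k} with hα
  have hX : ∀ u : α, ∃ T : 𝒜, ∃ φ ∈ motions k, (T : Set ℂ) = φ '' region (mvF u.2.1 0 (Q u.1)) := by
    intro u
    obtain ⟨T, ⟨hT, φ, hφ, hTφ⟩, _⟩ := hA.2.1 _ (isOmino_mvF (hQ u.1) u.2.1 0)
    exact ⟨⟨T, hT⟩, φ, hφ, hTφ⟩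
  choose X φX hφX hTX using hX
  have hXinj : Function.Injective X := by
    intro u u' huu
    have h1 : φX u '' region (mvF u.2.1 0 (Q u.1)) = φX u' '' region (mvF u'.2.1 0 (Q u'.1)) := by
      rw [← hTX, ← hTX, huu]
    have hne : (mvF u'.2.1 0 (Q u'.1)).Nonempty :=
      ⟨_, mv_mem_mvF.2 (hQW u'.1 _ hl0)⟩
    obtain ⟨r, t, e, hmv⟩ := region_motion (χ := (φX u).trans (φX u').symm)
      (P := mvF u.2.1 0 (Q u.1)) hne (by rw [trans_image, h1, symm_image_image])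
    have hr : lm r t ∈ motions k := e ▸ motions_trans (hφX u) (motions_symm (hφX u'))
    have h2 : mvF (mul (inv u'.2.1) (mul r u.2.1)) (act (inv u'.2.1) t) (Q u.1) = Q u'.1 := by
      have h3 : mvF (inv u'.2.1) 0 (mvF r t (mvF u.2.1 0 (Q u.1))) = Q u'.1 := by
        rw [hmv]
        have := mvF_inv u'.2.1 0 (Q u'.1)
        rwa [act_zero, neg_zero] at this
      rw [mvF_mul, mvF_mul, act_zero, zero_add, add_zero, mul_assoc'] at h3
      exact h3
    obtain ⟨hab, hone⟩ := hcl _ _ _ _ h2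
    have h4 : mul r u.2.1 = u'.2.1 := by
      have : mul u'.2.1 (mul (inv u'.2.1) (mul r u.2.1)) = mul u'.2.1 one := by rw [hone]
      rw [← mul_assoc', mul_inv, one_mul', mul_one'] at this
      exact this
    exact Prod.ext hab (Subtype.ext (Dk_uniq k u.2.2 u'.2.2 hr h4))
  -- the filler tiles
  set 𝒴 : Set (Set ℂ) := {T | T ∈ 𝒜 ∧ ∃ C ∈ F, ∃ κ : ℂ ≃ᵢ ℂ, C.Nonempty ∧ T = κ '' region C}
    with h𝒴
  have hY : ∀ T : 𝒴, ∃ p : {C // C ∈ F} × {d // d ∈ Dk k}, IsOmino n (mvF p.2.1 0 p.1.1) ∧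
      ∃ μ ∈ motions k, (T : Set ℂ) = μ '' region (mvF p.2.1 0 p.1.1) := by
    rintro ⟨T, hT, C, hC, κ, hCne, hTκ⟩
    obtain ⟨x, hx⟩ := hCne
    have hPne : (Pc ⟨T, hT⟩).Nonempty := by
      rw [← Finset.card_pos, (hPc ⟨T, hT⟩).1]
      omega
    have hT' : T = φc ⟨T, hT⟩ '' region (Pc ⟨T, hT⟩) := hTc ⟨T, hT⟩
    obtain ⟨h, t, e, hmv⟩ := region_motion (χ := κ.trans (φc ⟨T, hT⟩).symm) (P := C) hPne
      (by rw [trans_image, ← hTκ]; exact (congrArg (fun X => (φc ⟨T, hT⟩).symm '' X) hT').trans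
            (symm_image_image _ _))
    obtain ⟨d, hd, r, hrd, hr⟩ := Dk_split k h
    have h1 : mvF r t (mvF d 0 C) = Pc ⟨T, hT⟩ := by
      rw [mvF_mul, act_zero, zero_add, hrd, hmv]
    refine ⟨(⟨C, hC⟩, ⟨d, hd⟩), ?_, (lm r t).trans (φc ⟨T, hT⟩), motions_trans (hr t) (hφc _), ?_⟩
    · have h2 := hPc ⟨T, hT⟩
      rw [← h1] at h2
      exact isOmino_mvF_iff.1 h2
    · simp only
      rw [trans_image, lm_image_region, h1]
      exact hT'
  choose p hp1 μ hμ hp2 using hY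
  have hpinj : Function.Injective p := by
    intro T T' hTT
    obtain ⟨_, _, huniq⟩ := hA.2.1 _ (hp1 T)
    have h1 := huniq T ⟨T.2.1, μ T, hμ T, hp2 T⟩
    have h2 := huniq T' ⟨T'.2.1, μ T', hμ T', hTT ▸ hp2 T'⟩
    exact Subtype.ext (h1.trans h2.symm)
  have hfinY : Finite 𝒴 := Finite.of_injective p hpinj
  have hcard : Nat.card 𝒴 < Nat.card α := by
    have h1 := Nat.card_le_card_of_injective p hpinj
    rw [Nat.card_prod] at h1
    rw [hα, Nat.card_prod, Nat.card_fin]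
    have h2 : 0 < Nat.card {d // d ∈ Dk k} := by
      have : Nonempty {d // d ∈ Dk k} := ⟨⟨one, one_mem_Dk k⟩⟩
      exact Nat.card_pos
    have h3 : Nat.card {C // C ∈ F} = F.card := by
      rw [Nat.card_eq_fintype_card, Fintype.card_coe]
    rw [h3] at h1
    exact h1.trans_lt (Nat.mul_lt_mul_of_pos_right hm h2)
  -- the filling map
  have hno : ∀ C : Finset (ℤ × ℤ), C ⊆ S → C.card = n → ¬ EdgeConn (C : Set (ℤ × ℤ)) := by
    intro C hC hCn
    have := Finset.card_le_card hC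
    omega
  set κ : ι × α → ℂ ≃ᵢ ℂ := fun q =>
    ((lm q.2.2.1 0).trans (φX q.2)).trans (ψ q.1) with hκ
  have hκT : ∀ q : ι × α, ψ q.1 '' (X q.2 : Set ℂ) = κ q '' region (Q q.2.1) := by
    intro q
    simp only [hκ]
    rw [trans_image, trans_image, lm_image_region, ← hTX]
  have hfill : ∀ q : ι × α, ∃ r : ι × 𝒴, ∃ C : Finset (ℤ × ℤ),
      ψ r.1 '' (r.2 : Set ℂ) = κ q '' region C ∧ C.card = n ∧ (∀ x ∈ S, x ∈ C) ∧
      Disjoint C (Q q.2.1) := by
    intro q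
    obtain ⟨j, C, hj1, hjC, hCn, hCc, hSC, hgC, hCQ, _⟩ := hTil.fill (n := n)
      (j1 := (q.1, X q.2)) (κ := κ q) (Q := Q q.2.1) (fun j => (hPc j.2).1)
      (fun j => (hPc j.2).2.1)
      (by
        rw [trans_image, ← hTc]
        exact hκT q) S g (hQS q.2.1)
      (fun x hx y hxy => (hN x hx y hxy).imp_right (Or.imp_left (hQW _ _)))
      hno hv0 (hQW _ _ hl0) (hQW _ _ hd0)
    rw [trans_image, ← hTc] at hjC
    have hWC : ∀ x ∈ W, x ∉ C := fun x hx hxC =>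
      Finset.disjoint_left.1 hCQ hxC (hQW _ _ hx)
    refine ⟨(j.1, ⟨j.2.1, j.2.2, C, hF C hSC hgC hWC hCn hCc, (κ q).trans (ψ j.1).symm,
      ⟨g, hgC⟩, ?_⟩), C, hjC, hCn, hSC, hCQ⟩
    rw [trans_image, ← hjC, symm_image_image]
  choose Φ CC hΦ1 hΦ2 hΦ3 hΦ4 using hfill
  have hΦinj : Function.Injective Φ := by
    intro q q' hqq
    by_cases hXX : (q.1, X q.2) = (q'.1, X q'.2)
    · rw [Prod.mk.injEq] at hXX
      exact Prod.ext hXX.1 (hXinj hXX.2)
    · exfalso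
      have h1 := hTil.disj _ _ hXX
      simp only at h1
      rw [trans_image, trans_image, ← hTc, ← hTc, hκT q, hκT q'] at h1
      refine filler_inj (n := n) S W g hl hu hN hS (κ1 := κ q) (κ2 := κ q') (C1 := CC q)
        (C2 := CC q') ?_ (hΦ2 q) (hQW _) (hQW _) (hΦ3 q) (hΦ3 q') (hΦ4 q) (hΦ4 q') h1
      rw [← hΦ1, ← hΦ1, hqq]
  -- bounds
  have hbX : Bornology.IsBounded (⋃ u : α, (X u : Set ℂ)) := by
    rw [Bornology.isBounded_iUnion]
    intro u
    rw [hTX]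
    exact isBounded_image _ (isBounded_region _)
  have hbY : Bornology.IsBounded (⋃ T : 𝒴, (T : Set ℂ)) := by
    rw [Bornology.isBounded_iUnion]
    intro T
    rw [hp2]
    exact isBounded_image _ (isBounded_region _)
  obtain ⟨M1, hM1⟩ := (Metric.isBounded_iff_subset_closedBall 0).1 hbX
  obtain ⟨M2, hM2⟩ := (Metric.isBounded_iff_subset_closedBall 0).1 hbY
  obtain ⟨D, hD⟩ := exists_nat_ge (M1 + M2 + 1)
  have hdist : ∀ q, dist (ψ (Φ q).1 0) (ψ q.1 0) ≤ D := by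
    intro q
    set w0 : ℤ × ℤ := (v0.1 - 1, v0.2) with hw0
    -- a point of the pocket tile
    have h1 : κ q (ctr w0) ∈ ψ q.1 '' (X q.2 : Set ℂ) := by
      rw [hκT q]
      exact Set.mem_image_of_mem _ (square_subset_region (hQW _ _ hl0)
        (osq_subset _ (ctr_mem_osq _)))
    have h2 : κ q (ctr v0) ∈ ψ (Φ q).1 '' ((Φ q).2 : Set ℂ) := by
      rw [hΦ1 q]
      exact Set.mem_image_of_mem _ (square_subset_region (hΦ3 q _ hv0)
        (osq_subset _ (ctr_mem_osq _)))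
    obtain ⟨z1, hz1, e1⟩ := h1
    obtain ⟨z2, hz2, e2⟩ := h2
    have h3 : dist (κ q (ctr w0)) (ψ q.1 0) ≤ M1 := by
      rw [← e1, (ψ q.1).dist_eq]
      exact hM1 (Set.mem_iUnion.2 ⟨q.2, hz1⟩)
    have h4 : dist (κ q (ctr v0)) (ψ (Φ q).1 0) ≤ M2 := by
      rw [← e2, (ψ (Φ q).1).dist_eq]
      exact hM2 (Set.mem_iUnion.2 ⟨(Φ q).2, hz2⟩)
    have h5 : dist (κ q (ctr v0)) (κ q (ctr w0)) ≤ 1 := by
      rw [(κ q).dist_eq, dist_eq_norm]
      have : ctr v0 - ctr w0 = 1 := by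
        apply Complex.ext <;> simp [ctr, hw0]
      rw [this, norm_one]
    have h6 := dist_triangle4 (ψ (Φ q).1 0) (κ q (ctr v0)) (κ q (ctr w0)) (ψ q.1 0)
    rw [dist_comm (ψ (Φ q).1 0) (κ q (ctr v0))] at h6
    linarith
  -- the number of copies in a disk
  have hSne : 0 < m := by omega
  set u0 : α := (⟨0, hSne⟩, ⟨one, one_mem_Dk k⟩) with hu0
  have hPne : (Pc (X u0)).Nonempty := by
    rw [← Finset.card_pos, (hPc (X u0)).1]
    omega
  obtain ⟨c, hc⟩ := hPne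
  obtain ⟨M0, hM0⟩ := exists_nat_ge ‖φc (X u0) (ctr c)‖
  have hNb : ∀ k : ℕ, {i | ‖ψ i 0‖ ≤ k}.Finite ∧
      {i | ‖ψ i 0‖ ≤ k}.ncard ≤ (4 * k + (4 * M0 + 1)) ^ 2 := by
    intro k
    have h1 := sep_card {i | ‖ψ i 0‖ ≤ k} (fun i => ψ i (φc (X u0) (ctr c))) (k + M0) ?_ ?_
    · rw [show 4 * (k + M0) + 1 = 4 * k + (4 * M0 + 1) by ring] at h1
      exact h1
    · intro i hi
      have h2 : dist (ψ i (φc (X u0) (ctr c))) (ψ i 0) ≤ M0 := by
        rw [(ψ i).dist_eq, dist_zero_right]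
        exact hM0
      have h3 : ‖ψ i (φc (X u0) (ctr c))‖ ≤ ‖ψ i 0‖ + dist (ψ i (φc (X u0) (ctr c))) (ψ i 0) := by
        rw [dist_eq_norm]
        have := norm_add_le (ψ i 0) (ψ i (φc (X u0) (ctr c)) - ψ i 0)
        rwa [add_sub_cancel] at this
      have h4 : ‖ψ i 0‖ ≤ k := hi
      push_cast
      linarith
    · intro i _ j _ hij
      exact hTil.centres (i := (i, X u0)) (j := (j, X u0)) hc hc
        (fun h => hij (by
          have := congrArg (fun z => z.1.1) h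
          exact this))
  exact growth_contradiction (fun i => ψ i 0) D 4 (4 * M0 + 1) hNb Φ hΦinj hdist hcard i0

end Omino
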