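import Pool.Agent.Lib.MP_8bb6bd_co.Geom

/-!
# Tilings of the plane by images of sets of cells: filling of a pocket
-/

namespace Omino

theorem square_subset_region {P : Finset (ℤ × ℤ)} {c : ℤ × ℤ} (hc : c ∈ P) :
    square c ⊆ region P := by
  intro z hz
  simp only [region, Set.mem_iUnion]
  exact ⟨c, hc, hz⟩

theorem mem_region {P : Finset (ℤ × ℤ)} {z : ℂ} : z ∈ region P ↔ ∃ c ∈ P, z ∈ square c := by
  simp [region]

theorem mem_of_osq_region {P : Finset (ℤ × ℤ)} {c : ℤ × ℤ} {z : ℂ} (hz : z ∈ osq c)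
    (h : z ∈ region P) : c ∈ P := by
  obtain ⟨w, hw, hzw⟩ := mem_region.1 h
  rwa [← eq_of_mem_square_osq hzw hz]

/-- The centre of the square of a cell. -/
noncomputable def ctr (c : ℤ × ℤ) : ℂ := ⟨c.1 + 1 / 2, c.2 + 1 / 2⟩

theorem ctr_mem_osq (c : ℤ × ℤ) : ctr c ∈ osq c := by
  refine ⟨?_, ?_, ?_, ?_⟩ <;> simp only [ctr] <;> linarith

theorem region_injective {P Q : Finset (ℤ × ℤ)} (h : region P = region Q) : P = Q := by
  ext c
  constructor
  · intro hc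
    exact mem_of_osq_region (ctr_mem_osq c)
      (h ▸ square_subset_region hc (osq_subset c (ctr_mem_osq c)))
  · intro hc
    exact mem_of_osq_region (ctr_mem_osq c)
      (h ▸ square_subset_region hc (osq_subset c (ctr_mem_osq c)))

theorem osq_subset_interior_region {P : Finset (ℤ × ℤ)} {c : ℤ × ℤ} (hc : c ∈ P) :
    osq c ⊆ interior (region P) :=
  (osq_subset_interior c).trans (interior_mono (square_subset_region hc))

theorem dpt_mem_osq (v : ℤ × ℤ) {ε : ℝ} (h0 : 0 < ε) (h1 : ε < 1) : dpt v ε ∈ osq v := by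
  refine ⟨?_, ?_, ?_, ?_⟩ <;> simp only [dpt] <;> linarith

/-- An isometry carrying a nonempty union of lattice squares onto another one is a lattice
motion. -/
theorem region_motion {χ : ℂ ≃ᵢ ℂ} {P Q : Finset (ℤ × ℤ)} (hne : Q.Nonempty)
    (h : χ '' region P = region Q) : ∃ g t, χ = lm g t ∧ mvF g t P = Q := by
  obtain ⟨v, hv, hmin⟩ := Finset.exists_min_image Q (fun c => c.1 + c.2) hne
  have hleft : (v.1 - 1, v.2) ∉ Q := fun hc => by
    have := hmin _ hc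
    simp only at this
    omega
  have hdown : (v.1, v.2 - 1) ∉ Q := fun hc => by
    have := hmin _ hc
    simp only at this
    omega
  obtain ⟨c, hc, hdiag⟩ := exists_diag (s := (P : Set (ℤ × ℤ))) P.finite_toSet
    (fun c => χ '' square c) (fun c _ => isClosed_image_square χ c)
    (fun c _ => convex_image_square χ c) v (by
      intro ε h0 h1
      have h2 : dpt v ε ∈ region Q := square_subset_region hv (osq_subset _ (dpt_mem_osq v h0 h1))
      rw [← h] at h2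
      obtain ⟨z, hz, hzv⟩ := h2
      obtain ⟨c, hc, hzc⟩ := mem_region.1 hz
      exact ⟨c, hc, z, hzc, hzv⟩)
  have hsub : interior (χ '' square c) ⊆ region Q := by
    rw [← h]
    exact interior_subset.trans (Set.image_mono (square_subset_region (Finset.mem_coe.1 hc)))
  obtain ⟨g, t, hχ, hcv⟩ := corner_square hdiag
    (Set.disjoint_left.2 fun z hz hz' => hleft (mem_of_osq_region hz' (hsub hz)))
    (Set.disjoint_left.2 fun z hz hz' => hdown (mem_of_osq_region hz' (hsub hz)))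
  refine ⟨g, t, hχ, ?_⟩
  apply region_injective
  rw [← lm_image_region, ← hχ, h]

/-! ### Separated points -/

theorem sep_card {α : Type*} (S : Set α) (f : α → ℂ) (k : ℕ) (h1 : ∀ a ∈ S, ‖f a‖ ≤ k)
    (h2 : ∀ a ∈ S, ∀ b ∈ S, a ≠ b → 1 ≤ dist (f a) (f b)) :
    S.Finite ∧ S.ncard ≤ (4 * k + 1) ^ 2 := by
  set g : α → ℤ × ℤ := fun a => (⌊2 * (f a).re⌋, ⌊2 * (f a).im⌋) with hg
  set B : Finset (ℤ × ℤ) := Finset.Icc (-(2 * k : ℤ)) (2 * k) ×ˢ Finset.Icc (-(2 * k : ℤ)) (2 * k)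
    with hB
  have hbd : ∀ x : ℝ, |x| ≤ k → ⌊2 * x⌋ ∈ Finset.Icc (-(2 * k : ℤ)) (2 * k) := by
    intro x hx
    rw [Finset.mem_Icc]
    obtain ⟨ha, hb⟩ := abs_le.1 hx
    constructor
    · rw [Int.le_floor]
      push_cast
      linarith
    · have : (⌊2 * x⌋ : ℝ) ≤ 2 * k := (Int.floor_le _).trans (by linarith)
      exact_mod_cast this
  have hmaps : ∀ a ∈ S, g a ∈ (B : Set (ℤ × ℤ)) := by
    intro a ha
    rw [Finset.mem_coe, hB, Finset.mem_product]
    exact ⟨hbd _ ((Complex.abs_re_le_norm _).trans (h1 a ha)),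
      hbd _ ((Complex.abs_im_le_norm _).trans (h1 a ha))⟩
  have hclose : ∀ x y : ℝ, ⌊2 * x⌋ = ⌊2 * y⌋ → |x - y| < 1 / 2 := by
    intro x y hxy
    have a1 := Int.floor_le (2 * x)
    have a2 := Int.lt_floor_add_one (2 * x)
    have b1 := Int.floor_le (2 * y)
    have b2 := Int.lt_floor_add_one (2 * y)
    rw [hxy] at a1 a2
    rw [abs_lt]
    constructor <;> linarith
  have hinj : Set.InjOn g S := by
    intro a ha b hb hab
    by_contra hne
    have h3 := h2 a ha b hb hne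
    simp only [hg, Prod.mk.injEq] at hab
    have c1 := hclose _ _ hab.1
    have c2 := hclose _ _ hab.2
    rw [dist_eq_norm] at h3
    have h4 := Complex.norm_le_abs_re_add_abs_im (f a - f b)
    rw [Complex.sub_re, Complex.sub_im] at h4
    linarith
  have hfin : S.Finite := Set.Finite.of_injOn hmaps hinj B.finite_toSet
  refine ⟨hfin, ?_⟩
  have h5 := Set.ncard_le_ncard_of_injOn g hmaps hinj B.finite_toSet
  rw [Set.ncard_coe_finset, hB, Finset.card_product, Int.card_Icc] at h5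
  have h6 : (2 * (k : ℤ) + 1 - -(2 * k : ℤ)).toNat = 4 * k + 1 := by omega
  rw [h6] at h5
  rw [sq]
  exact h5

theorem ball_subset_osq (c : ℤ × ℤ) : Metric.ball (ctr c) (1 / 2) ⊆ osq c := by
  intro z hz
  rw [Metric.mem_ball, dist_eq_norm] at hz
  have h1 := (Complex.abs_re_le_norm (z - ctr c)).trans_lt hz
  have h2 := (Complex.abs_im_le_norm (z - ctr c)).trans_lt hz
  rw [Complex.sub_re, abs_lt] at h1
  rw [Complex.sub_im, abs_lt] at h2
  simp only [ctr] at h1 h2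
  refine ⟨?_, ?_, ?_, ?_⟩ <;> linarith

/-- Two images of cells without common interior point have centres at distance at least `1`. -/
theorem one_le_dist {χ χ' : ℂ ≃ᵢ ℂ} {c c' : ℤ × ℤ}
    (h : Disjoint (χ '' osq c) (χ' '' osq c')) : 1 ≤ dist (χ (ctr c)) (χ' (ctr c')) := by
  by_contra hcon
  push Not at hcon
  set m := midpoint ℝ (χ (ctr c)) (χ' (ctr c')) with hm
  have h1 : dist m (χ (ctr c)) < 1 / 2 := by
    rw [hm, dist_midpoint_left]
    rw [Real.norm_of_nonneg (by norm_num)]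
    linarith
  have h2 : dist m (χ' (ctr c')) < 1 / 2 := by
    rw [hm, dist_midpoint_right]
    rw [Real.norm_of_nonneg (by norm_num)]
    linarith
  have h3 : m ∈ χ '' osq c := by
    refine ⟨χ.symm m, ball_subset_osq c ?_, χ.apply_symm_apply m⟩
    rw [Metric.mem_ball, ← χ.dist_eq, χ.apply_symm_apply]
    exact h1
  have h4 : m ∈ χ' '' osq c' := by
    refine ⟨χ'.symm m, ball_subset_osq c' ?_, χ'.apply_symm_apply m⟩
    rw [Metric.mem_ball, ← χ'.dist_eq, χ'.apply_symm_apply]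
    exact h2
  exact Set.disjoint_left.1 h h3 h4

theorem dist_ctr_le {c : ℤ × ℤ} {z : ℂ} (hz : z ∈ square c) : dist (ctr c) z ≤ 1 := by
  obtain ⟨h1, h2, h3, h4⟩ := hz
  rw [dist_eq_norm]
  refine (Complex.norm_le_abs_re_add_abs_im _).trans ?_
  rw [Complex.sub_re, Complex.sub_im]
  simp only [ctr]
  have a1 : |(c.1 : ℝ) + 1 / 2 - z.re| ≤ 1 / 2 := by rw [abs_le]; constructor <;> linarith
  have a2 : |(c.2 : ℝ) + 1 / 2 - z.im| ≤ 1 / 2 := by rw [abs_le]; constructor <;> linarith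
  linarith

/-! ### Tilings -/

/-- A tiling of the plane by images of unions of cells. -/
structure Tiles {J : Type*} (χ : J → ℂ ≃ᵢ ℂ) (P : J → Finset (ℤ × ℤ)) : Prop where
  cover : (⋃ j, χ j '' region (P j)) = Set.univ
  disj : ∀ i j, i ≠ j →
    Disjoint (interior (χ i '' region (P i))) (interior (χ j '' region (P j)))

variable {J : Type*} {χ : J → ℂ ≃ᵢ ℂ} {P : J → Finset (ℤ × ℤ)}

theorem Tiles.centres (hT : Tiles χ P) {i j : J} {c d : ℤ × ℤ} (hc : c ∈ P i) (hd : d ∈ P j)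
    (hne : (i, c) ≠ (j, d)) : 1 ≤ dist (χ i (ctr c)) (χ j (ctr d)) := by
  apply one_le_dist
  by_cases hij : i = j
  · subst hij
    have hcd : c ≠ d := fun h => hne (by rw [h])
    rw [Set.disjoint_image_iff (χ i).injective]
    exact Set.disjoint_left.2 fun z h1 h2 => hcd (eq_of_mem_square_osq (osq_subset _ h1) h2)
  · refine (hT.disj i j hij).mono ?_ ?_
    · rw [interior_image]
      exact Set.image_mono (osq_subset_interior_region hc)
    · rw [interior_image]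
      exact Set.image_mono (osq_subset_interior_region hd)

theorem Tiles.locallyFinite (hT : Tiles χ P) (p : ℂ) :
    {a : J × (ℤ × ℤ) | a.2 ∈ P a.1 ∧ dist (χ a.1 (ctr a.2)) p ≤ 3}.Finite := by
  refine (sep_card _ (fun a => χ a.1 (ctr a.2) - p) 3 ?_ ?_).1
  · rintro ⟨i, c⟩ ⟨_, h2⟩
    rw [dist_eq_norm] at h2
    exact_mod_cast h2
  · rintro ⟨i, c⟩ ⟨h1, _⟩ ⟨j, d⟩ ⟨h2, _⟩ hne
    rw [dist_sub_right]
    exact hT.centres h1 h2 hne

theorem Tiles.aligned_disjoint (hT : Tiles χ P) {i j : J} (hij : i ≠ j) {h h' : D4}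
    {t t' : ℤ × ℤ} (ei : χ i = lm h t) (ej : χ j = lm h' t') :
    Disjoint (mvF h t (P i)) (mvF h' t' (P j)) := by
  rw [Finset.disjoint_left]
  intro c hc hc'
  have h1 := hT.disj i j hij
  rw [ei, ej, lm_image_region, lm_image_region] at h1
  exact Set.disjoint_left.1 h1 (osq_subset_interior_region hc (ctr_mem_osq c))
    (osq_subset_interior_region hc' (ctr_mem_osq c))

/-- A cell whose left and lower neighbours are covered by aligned tiles not containing it is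
covered by an aligned tile. -/
theorem Tiles.corner (hT : Tiles χ P) {v : ℤ × ℤ} {j1 j2 : J} {h1 h2 : D4} {t1 t2 : ℤ × ℤ}
    (e1 : χ j1 = lm h1 t1) (e2 : χ j2 = lm h2 t2)
    (hl : (v.1 - 1, v.2) ∈ mvF h1 t1 (P j1)) (hv1 : v ∉ mvF h1 t1 (P j1))
    (hd : (v.1, v.2 - 1) ∈ mvF h2 t2 (P j2)) (hv2 : v ∉ mvF h2 t2 (P j2)) :
    ∃ j h t, χ j = lm h t ∧ v ∈ mvF h t (P j) := by
  obtain ⟨⟨j, c⟩, hjc, hdiag⟩ := exists_diag (hT.locallyFinite (vec v))
    (fun a => χ a.1 '' square a.2) (fun a _ => isClosed_image_square _ _)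
    (fun a _ => convex_image_square _ _) v (by
      intro ε h0 h1
      have h2 : dpt v ε ∈ ⋃ j, χ j '' region (P j) := by rw [hT.cover]; trivial
      obtain ⟨j, z, hz, hzv⟩ := Set.mem_iUnion.1 h2
      obtain ⟨c, hc, hzc⟩ := mem_region.1 hz
      refine ⟨(j, c), ⟨hc, ?_⟩, z, hzc, hzv⟩
      have h3 : dist (χ j (ctr c)) (dpt v ε) ≤ 1 := by
        rw [← hzv, (χ j).dist_eq]
        exact dist_ctr_le hzc
      have h4 : dist (dpt v ε) (vec v) ≤ 2 := by
        rw [dist_eq_norm]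
        refine (Complex.norm_le_abs_re_add_abs_im _).trans ?_
        simp only [Complex.sub_re, Complex.sub_im, dpt, vec_re, vec_im, add_sub_cancel_left]
        rw [abs_of_pos h0]
        linarith
      exact (dist_triangle _ _ _).trans (by linarith))
  obtain ⟨hc, _⟩ := hjc
  simp only at hc hdiag
  have hne : ∀ j' h' t', χ j' = lm h' t' → v ∉ mvF h' t' (P j') → j ≠ j' := by
    rintro j' h' t' e' hv' rfl
    apply hv'
    obtain ⟨ε0, hε0, hd0⟩ := hdiag
    have h3 := hd0 (min ε0 (1 / 2)) (le_min hε0.le (by norm_num)) (min_le_left _ _)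
    rw [e', lm_image_square] at h3
    have h4 : dpt v (min ε0 (1 / 2)) ∈ osq v :=
      dpt_mem_osq v (lt_min hε0 (by norm_num)) ((min_le_right _ _).trans_lt (by norm_num))
    rw [← eq_of_mem_square_osq h3 h4]
    exact mv_mem_mvF.2 hc
  have hdis : ∀ j' h' t' w, χ j' = lm h' t' → v ∉ mvF h' t' (P j') → w ∈ mvF h' t' (P j') →
      Disjoint (interior (χ j '' square c)) (osq w) := by
    intro j' h' t' w e' hv' hw
    refine (hT.disj j j' (hne j' h' t' e' hv')).mono ?_ ?_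
    · exact interior_mono (Set.image_mono (square_subset_region hc))
    · rw [e', lm_image_region]
      exact osq_subset_interior_region hw
  obtain ⟨h, t, hχ, hcv⟩ := corner_square hdiag (hdis j1 h1 t1 _ e1 hv1 hl)
    (hdis j2 h2 t2 _ e2 hv2 hd)
  exact ⟨j, h, t, hχ, hcv ▸ mv_mem_mvF.2 hc⟩

/-- Filling of a pocket (in the frame of the pocket). -/
theorem Tiles.filling (hT : Tiles χ P) {n : ℕ} (hcard : ∀ j, (P j).card = n)
    (hconn : ∀ j, EdgeConn (P j : Set (ℤ × ℤ))) {j1 : J} {h1 : D4} {t1 : ℤ × ℤ}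
    (e1 : χ j1 = lm h1 t1) {Q : Finset (ℤ × ℤ)} (hQ : mvF h1 t1 (P j1) = Q)
    (V : Finset (ℤ × ℤ)) (g : ℤ × ℤ) (hVQ : ∀ x ∈ V, x ∉ Q)
    (hN : ∀ x ∈ V, ∀ y, Adj x y → y ∈ V ∨ y ∈ Q ∨ y = g)
    (hno : ∀ C : Finset (ℤ × ℤ), C ⊆ V → C.card = n → ¬ EdgeConn (C : Set (ℤ × ℤ)))
    {v0 : ℤ × ℤ} (hv0 : v0 ∈ V) (hl0 : (v0.1 - 1, v0.2) ∈ Q) (hd0 : (v0.1, v0.2 - 1) ∈ Q) :
    ∃ j h t, χ j = lm h t ∧ j ≠ j1 ∧ (∀ x ∈ V, x ∈ mvF h t (P j)) ∧ g ∈ mvF h t (P j) := by
  -- an aligned tile meeting `V`, different from the pocket tile, contains `g`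
  have hexit : ∀ j h t, χ j = lm h t → j ≠ j1 → ∀ v ∈ V, v ∈ mvF h t (P j) →
      g ∈ mvF h t (P j) := by
    intro j h t e hj v hv hvC
    have hC : EdgeConn (mvF h t (P j) : Set (ℤ × ℤ)) := by
      rw [coe_mvF]
      exact edgeConn_image (hconn j) _ fun x y => (adj_mv h t x y).2
    have hcardC : (mvF h t (P j)).card = n := by rw [card_mvF, hcard]
    have : ∃ b ∈ mvF h t (P j), b ∉ V := by
      by_contra hcon
      push Not at hcon
      exact hno _ hcon hcardC hC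
    obtain ⟨b, hb, hbV⟩ := this
    obtain ⟨x, y, hx, hy, hxy, hxV, hyV⟩ := exit (V := (V : Set (ℤ × ℤ))) hC
      (Finset.mem_coe.2 hvC) (Finset.mem_coe.2 hv) (Finset.mem_coe.2 hb) (by simpa using hbV)
    rcases hN x (Finset.mem_coe.1 hxV) y hxy with h3 | h3 | h3
    · exact absurd (Finset.mem_coe.2 h3) hyV
    · rw [← hQ] at h3
      exact absurd h3 (Finset.disjoint_left.1 (hT.aligned_disjoint hj e e1) (Finset.mem_coe.1 hy))
    · rw [← h3]
      exact Finset.mem_coe.1 hy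
  have hne1 : ∀ j h t, χ j = lm h t → ∀ v ∈ V, v ∈ mvF h t (P j) → j ≠ j1 := by
    rintro j h t e v hv hvC rfl
    apply hVQ v hv
    rw [← hQ]
    apply mem_of_osq_region (ctr_mem_osq v)
    rw [← lm_image_region, ← e1, e, lm_image_region]
    exact square_subset_region hvC (osq_subset _ (ctr_mem_osq v))
  -- the tile containing `v0`
  obtain ⟨j, h, t, e, hj⟩ := hT.corner e1 e1 (hQ ▸ hl0) (hQ ▸ hVQ v0 hv0) (hQ ▸ hd0)
    (hQ ▸ hVQ v0 hv0)
  have hjj1 := hne1 j h t e v0 hv0 hj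
  have hg := hexit j h t e hjj1 v0 hv0 hj
  refine ⟨j, h, t, e, hjj1, ?_, hg⟩
  by_contra hcon
  push Not at hcon
  have hne : (V.filter (fun x => x ∉ mvF h t (P j))).Nonempty := by
    obtain ⟨x, hx, hx'⟩ := hcon
    exact ⟨x, Finset.mem_filter.2 ⟨hx, hx'⟩⟩
  obtain ⟨v, hv, hmin⟩ := Finset.exists_min_image _ (fun c => c.1 + c.2) hne
  obtain ⟨hvV, hvC⟩ := Finset.mem_filter.1 hv
  -- a lower-left neighbour of `v` is covered by the pocket tile or by the tile `j`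
  have hnb : ∀ y, Adj v y → y.1 + y.2 < v.1 + v.2 → y ∈ mvF h t (P j) ∨ y ∈ Q := by
    intro y hy hlt
    rcases hN v hvV y hy with h3 | h3 | h3
    · left
      by_contra h4
      have := hmin y (Finset.mem_filter.2 ⟨h3, h4⟩)
      omega
    · exact Or.inr h3
    · exact Or.inl (h3 ▸ hg)
  have hQ1 : ∀ y, y ∈ Q → y ∈ mvF h1 t1 (P j1) := fun y hy => hQ ▸ hy
  have hvQ1 : v ∉ mvF h1 t1 (P j1) := hQ ▸ hVQ v hvV
  have hfin : ∃ j' h' t', χ j' = lm h' t' ∧ v ∈ mvF h' t' (P j') := by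
    rcases hnb (v.1 - 1, v.2) (by simp [Adj]) (by simp only; omega) with a | a <;>
    rcases hnb (v.1, v.2 - 1) (by simp [Adj]) (by simp only; omega) with b | b
    · exact hT.corner e e a hvC b hvC
    · exact hT.corner e e1 a hvC (hQ1 _ b) hvQ1
    · exact hT.corner e1 e (hQ1 _ a) hvQ1 b hvC
    · exact hT.corner e1 e1 (hQ1 _ a) hvQ1 (hQ1 _ b) hvQ1
  obtain ⟨j', h', t', e', hj'⟩ := hfin
  have hj'j1 := hne1 j' h' t' e' v hvV hj'
  have hg' := hexit j' h' t' e' hj'j1 v hvV hj'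
  have hjj' : j ≠ j' := by
    rintro rfl
    apply hvC
    apply mem_of_osq_region (ctr_mem_osq v)
    rw [← lm_image_region, ← e, e', lm_image_region]
    exact square_subset_region hj' (osq_subset _ (ctr_mem_osq v))
  exact Finset.disjoint_left.1 (hT.aligned_disjoint hjj' e e') hg hg'

theorem image_image_symm (κ : ℂ ≃ᵢ ℂ) (A : Set ℂ) : κ '' (κ.symm '' A) = A := by
  rw [Set.image_image]
  simp only [κ.apply_symm_apply, Set.image_id']

theorem symm_image_image (κ : ℂ ≃ᵢ ℂ) (A : Set ℂ) : κ.symm '' (κ '' A) = A := by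
  rw [Set.image_image]
  simp only [κ.symm_apply_apply, Set.image_id']

/-- The image of a tiling under an isometry. -/
theorem Tiles.map (hT : Tiles χ P) (κ : ℂ ≃ᵢ ℂ) : Tiles (fun j => (χ j).trans κ) P := by
  have e : ∀ j, ((χ j).trans κ) '' region (P j) = κ '' (χ j '' region (P j)) := by
    intro j
    rw [← Set.image_comp]
    rfl
  constructor
  · simp only [e]
    rw [← Set.image_iUnion, hT.cover, Set.image_univ, κ.surjective.range_eq]
  · intro i j hij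
    rw [e, e, interior_image, interior_image κ, Set.disjoint_image_iff κ.injective]
    exact hT.disj i j hij

/-- Filling of a pocket in an arbitrary position. -/
theorem Tiles.fill (hT : Tiles χ P) {n : ℕ} (hcard : ∀ j, (P j).card = n)
    (hconn : ∀ j, EdgeConn (P j : Set (ℤ × ℤ))) {j1 : J} {κ : ℂ ≃ᵢ ℂ} {Q : Finset (ℤ × ℤ)}
    (hQ : χ j1 '' region (P j1) = κ '' region Q)
    (V : Finset (ℤ × ℤ)) (g : ℤ × ℤ) (hVQ : ∀ x ∈ V, x ∉ Q)
    (hN : ∀ x ∈ V, ∀ y, Adj x y → y ∈ V ∨ y ∈ Q ∨ y = g)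
    (hno : ∀ C : Finset (ℤ × ℤ), C ⊆ V → C.card = n → ¬ EdgeConn (C : Set (ℤ × ℤ)))
    {v0 : ℤ × ℤ} (hv0 : v0 ∈ V) (hl0 : (v0.1 - 1, v0.2) ∈ Q) (hd0 : (v0.1, v0.2 - 1) ∈ Q) :
    ∃ j C, j ≠ j1 ∧ χ j '' region (P j) = κ '' region C ∧ C.card = n ∧
      EdgeConn (C : Set (ℤ × ℤ)) ∧ (∀ x ∈ V, x ∈ C) ∧ g ∈ C ∧ Disjoint C Q ∧
      ∃ g t, mvF g t (P j) = C := by
  have hT' := hT.map κ.symm
  have e : ∀ j, ((χ j).trans κ.symm) '' region (P j) = κ.symm '' (χ j '' region (P j)) := by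
    intro j
    rw [← Set.image_comp]
    rfl
  have hQne : Q.Nonempty := ⟨_, hl0⟩
  obtain ⟨h1, t1, e1, hQ1⟩ := region_motion (χ := (χ j1).trans κ.symm) (P := P j1) (Q := Q) hQne
    (by rw [e, hQ, symm_image_image])
  obtain ⟨j, h, t, e2, hne, hV, hg⟩ := hT'.filling hcard hconn e1 hQ1 V g hVQ hN hno hv0 hl0 hd0
  refine ⟨j, mvF h t (P j), hne, ?_, by rw [card_mvF, hcard], ?_, hV, hg, ?_, h, t, rfl⟩
  · rw [← lm_image_region, ← e2, e, image_image_symm]
  · rw [coe_mvF]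
    exact edgeConn_image (hconn j) _ fun x y => (adj_mv h t x y).2
  · rw [← hQ1]
    exact hT'.aligned_disjoint hne e2 e1

/-- A filler does not fill two different pockets. -/
theorem inj_comb {n : ℕ} (S W : Finset (ℤ × ℤ)) (g : ℤ × ℤ)
    (hl : ∀ x ∈ S, (x.1 - 1, x.2) ∈ S ∨ (x.1 - 1, x.2) ∈ W)
    (hu : ∀ x ∈ S, (x.1, x.2 + 1) ∈ S ∨ (x.1, x.2 + 1) ∈ W)
    (hN : ∀ x ∈ S, ∀ y, Adj x y → y ∈ S ∨ y ∈ W ∨ y = g) (hS : n < 2 * S.card)
    (h : D4) (t : ℤ × ℤ) {P1 P2 C : Finset (ℤ × ℤ)} (hC : C.card = n)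
    (hW1 : ∀ x ∈ W, x ∈ P1) (hW2 : ∀ x ∈ W, mv h t x ∈ P2) (hS1 : ∀ x ∈ S, x ∈ C)
    (hS2 : ∀ x ∈ S, mv h t x ∈ C) (hCP1 : Disjoint C P1) (hCP2 : Disjoint C P2)
    (hPP : Disjoint P1 P2) : False := by
  classical
  set S' := mvF h t S with hS'
  have hS'C : S' ⊆ C := by
    intro x hx
    obtain ⟨y, hy, rfl⟩ := mem_mvF.1 hx
    exact hS2 y hy
  have hSC : S ⊆ C := hS1
  have hint : (S ∩ S').Nonempty := by
    rw [← Finset.card_pos]
    have h1 := Finset.card_union_add_card_inter S S'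
    have h2 := Finset.card_le_card (Finset.union_subset hSC hS'C)
    rw [card_mvF] at h1
    omega
  obtain ⟨x, hx⟩ := hint
  -- neighbours of a cell of `S'`
  have hN' : ∀ y ∈ S', ∀ z, Adj y z → z ∈ S' ∨ z ∈ P2 ∨ z = mv h t g := by
    intro y hy z hyz
    obtain ⟨y, hy', rfl⟩ := mem_mvF.1 hy
    obtain ⟨z, rfl⟩ := (mv h t).surjective z
    rw [adj_mv] at hyz
    rcases hN y hy' z hyz with h1 | h1 | h1
    · exact Or.inl (mv_mem_mvF.2 h1)
    · exact Or.inr (Or.inl (hW2 z h1))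
    · exact Or.inr (Or.inr (by rw [h1]))
  -- a step from `S ∩ S'` which does not end in `S ∩ S'` ends in the image of the gate
  have hstep : ∀ y ∈ S ∩ S', ∀ z, Adj y z → (z ∈ S ∨ z ∈ W) → z ∉ S ∩ S' → z = mv h t g := by
    intro y hy z hyz hz hz'
    obtain ⟨hy1, hy2⟩ := Finset.mem_inter.1 hy
    rcases hN' y hy2 z hyz with h1 | h1 | h1
    · rcases hz with h2 | h2
      · exact absurd (Finset.mem_inter.2 ⟨h2, h1⟩) hz'
      · exact absurd (hW1 z h2) (Finset.disjoint_left.1 hCP1 (hS'C h1))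
    · rcases hz with h2 | h2
      · exact absurd h1 (Finset.disjoint_left.1 hCP2 (hSC h2))
      · exact absurd h1 (Finset.disjoint_left.1 hPP (hW1 z h2))
    · exact h1
  -- leftwards
  have hA : (mv h t g).1 < x.1 ∧ (mv h t g).2 = x.2 := by
    have hne : ((S ∩ S').filter (fun y => y.2 = x.2 ∧ y.1 ≤ x.1)).Nonempty :=
      ⟨x, Finset.mem_filter.2 ⟨hx, rfl, le_rfl⟩⟩
    obtain ⟨y, hy, hmin⟩ := Finset.exists_min_image _ (fun y => y.1) hne
    obtain ⟨hy1, hy2, hy3⟩ := Finset.mem_filter.1 hy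
    have := hstep y hy1 (y.1 - 1, y.2) (by simp [Adj]) (hl y (Finset.mem_inter.1 hy1).1) (by
      intro hz
      have := hmin _ (Finset.mem_filter.2 ⟨hz, hy2, by simp only; omega⟩)
      simp only at this
      omega)
    rw [← this]
    exact ⟨by simp only; omega, hy2⟩
  -- upwards
  have hB : (mv h t g).1 = x.1 ∧ x.2 < (mv h t g).2 := by
    have hne : ((S ∩ S').filter (fun y => y.1 = x.1 ∧ x.2 ≤ y.2)).Nonempty :=
      ⟨x, Finset.mem_filter.2 ⟨hx, rfl, le_rfl⟩⟩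
    obtain ⟨y, hy, hmax⟩ := Finset.exists_max_image _ (fun y => y.2) hne
    obtain ⟨hy1, hy2, hy3⟩ := Finset.mem_filter.1 hy
    have := hstep y hy1 (y.1, y.2 + 1) (by simp [Adj]) (hu y (Finset.mem_inter.1 hy1).1) (by
      intro hz
      have := hmax _ (Finset.mem_filter.2 ⟨hz, hy2, by simp only; omega⟩)
      simp only at this
      omega)
    rw [← this]
    exact ⟨hy2, by simp only; omega⟩
  omega

/-- Two different tiles which are pockets are not filled by the same tile. -/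
theorem filler_inj {n : ℕ} (S W : Finset (ℤ × ℤ)) (g : ℤ × ℤ)
    (hl : ∀ x ∈ S, (x.1 - 1, x.2) ∈ S ∨ (x.1 - 1, x.2) ∈ W)
    (hu : ∀ x ∈ S, (x.1, x.2 + 1) ∈ S ∨ (x.1, x.2 + 1) ∈ W)
    (hN : ∀ x ∈ S, ∀ y, Adj x y → y ∈ S ∨ y ∈ W ∨ y = g) (hS : n < 2 * S.card)
    {κ1 κ2 : ℂ ≃ᵢ ℂ} {P1 P2 C1 C2 : Finset (ℤ × ℤ)} (hC : κ1 '' region C1 = κ2 '' region C2)
    (hCn : C1.card = n) (hW1 : ∀ x ∈ W, x ∈ P1) (hW2 : ∀ x ∈ W, x ∈ P2) (hS1 : ∀ x ∈ S, x ∈ C1)
    (hS2 : ∀ x ∈ S, x ∈ C2) (hCP1 : Disjoint C1 P1) (hCP2 : Disjoint C2 P2)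
    (hPP : Disjoint (interior (κ1 '' region P1)) (interior (κ2 '' region P2))) : False := by
  have hSne : S.Nonempty := by
    rw [← Finset.card_pos]; omega
  obtain ⟨x0, hx0⟩ := hSne
  obtain ⟨h, t, e, hmv⟩ := region_motion (χ := κ2.trans κ1.symm) (P := C2) (Q := C1)
    ⟨x0, hS1 x0 hx0⟩ (by
      have : (κ2.trans κ1.symm) '' region C2 = κ1.symm '' (κ2 '' region C2) := by
        rw [← Set.image_comp]; rfl
      rw [this, ← hC, symm_image_image])
  have hκ : ∀ A : Set ℂ, κ2 '' A = κ1 '' (lm h t '' A) := by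
    intro A
    rw [← e]
    have : (κ2.trans κ1.symm) '' A = κ1.symm '' (κ2 '' A) := by
      rw [← Set.image_comp]; rfl
    rw [this, image_image_symm]
  rw [hκ, lm_image_region, interior_image, interior_image, Set.disjoint_image_iff κ1.injective]
    at hPP
  refine inj_comb S W g hl hu hN hS h t (P1 := P1) (P2 := mvF h t P2) hCn hW1
    (fun x hx => mv_mem_mvF.2 (hW2 x hx)) hS1
    (fun x hx => by rw [← hmv]; exact mv_mem_mvF.2 (hS2 x hx)) hCP1 ?_ ?_
  · rw [← hmv, Finset.disjoint_left]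
    intro c hc hc'
    obtain ⟨d, rfl⟩ := (mv h t).surjective c
    exact Finset.disjoint_left.1 hCP2 (mv_mem_mvF.1 hc) (mv_mem_mvF.1 hc')
  · rw [Finset.disjoint_left]
    intro c hc hc'
    exact Set.disjoint_left.1 hPP (osq_subset_interior_region hc (ctr_mem_osq c))
      (osq_subset_interior_region hc' (ctr_mem_osq c))

end Omino
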